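import Mathlib

/-!
# From squarefree numbers to all integers

PROOF (to be filled in).  `A` injects into the pairs `(s, d')` with `1 ≤ s`, `s² ≤ N`, `d' ∈ S'`,
`|d'| ≤ N / s²` (replace `s` by `|s|`; `d = d' s²`).  For `s ^ 4 ≤ N` (and `N ≥ 16`) the hypothesis at
`N / s² ≥ √N` (natural number division, `≥ 2`) gives `C (N / s²) (log (N / s²)) ^ (-δ)`, at most
`C' (N / s²) (log N) ^ (-δ)`; for `s ^ 4 > N` the trivial bound `2 N / s² + 1 ≤ 3 N / s²`, and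
`∑_{s ^ 4 > N} 1 / s² ≤ 2 N ^ (-1/4)`, `N ^ (3/4) ≤ C'' N (log N) ^ (-δ)`.  `∑ 1 / s² ≤ 2`.
-/

namespace Pool.Agent.Helper11.TW

/-- If the numbers of `S'` in `[-N, N]` are at most `C N (log N) ^ (-δ)`, the same is true for the
numbers `d' s²` with `d' ∈ S'` and `s ≠ 0`. -/
theorem all_d (S' : Set ℤ) (C δ : ℝ) (hδ : 0 < δ)
    (h : ∀ N : ℕ, 2 ≤ N → ∀ A : Finset ℤ, (∀ d ∈ A, d ∈ S' ∧ |d| ≤ N) →
      (A.card : ℝ) ≤ C * N * (Real.log N) ^ (-δ)) :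
    ∃ C' : ℝ, ∀ N : ℕ, 2 ≤ N → ∀ A : Finset ℤ,
      (∀ d ∈ A, d ≠ 0 ∧ |d| ≤ N ∧ ∃ d' s : ℤ, d' ∈ S' ∧ s ≠ 0 ∧ d = d' * s ^ 2) →
      (A.card : ℝ) ≤ C' * N * (Real.log N) ^ (-δ) := by
  sorry

end Pool.Agent.Helper11.TW
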