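import Pool.Agent.Helper11.TW.Defs

/-!
# Varieties over the quadratic twists: definitions

Coordinates: `ζ s` (`s ∈ σ`, projective), `p i, q i, w i` (`(i, 0)`, `(i, 1)`, `(i, 2)`; the point
`w² = d q (p - a₀ q) (p - a₁ q) (p - a₂ q)` of the twist by `d` of the `i`-th curve, `w` has weight `2`).
-/

namespace Pool.Agent.Helper11.TW

open Classical in
/-- The primes satisfying `S` have lower logarithmic density at least `κ` (in a strong sense):
`∑ 1 / r ≥ κ log log x - K`, the sum over the primes `r ≤ x` satisfying `S`. -/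
def DensePrimes (κ : ℝ) (S : ℕ → Prop) : Prop :=
  ∃ K : ℝ, ∀ x : ℕ, 2 ≤ x → κ * Real.log (Real.log x) - K ≤
    ∑ r ∈ (Finset.Icc 1 x).filter (fun r => r.Prime ∧ S r), (1 / r : ℝ)

/-- The statement of the abstract counting theorem, second version: the primes with `S e r` have
lower logarithmic density at least `κ₀`, and every exponent `δ < κ₀` is allowed. -/
def HBS2 : Prop :=
  ∀ (J : Type) [Fintype J] [DecidableEq J] (S : (J → Bool) → ℕ → Prop) (κ₀ : ℝ),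
    (∀ e, DensePrimes κ₀ (S e)) →
    ∀ δ : ℝ, 0 < δ → δ < κ₀ → ∃ C : ℝ, ∀ (kap : (J → Bool) → J → ℕ → ℤ) (N : ℕ), 2 ≤ N →
      ∀ A : Finset ℕ,
      (∀ m ∈ A, m ≤ N ∧ Odd m ∧ Squarefree m ∧ ∃ D : (J → Bool) → ℕ, ∏ e, D e = m ∧
        ∀ e, ∀ r : ℕ, r.Prime → r ∣ D e → ¬ S e r ∧
          ∀ j, jacobiSym (∏ e' ∈ Finset.univ.filter (fun e' : J → Bool => e' j ≠ e j), (D e' : ℤ)) r
            = kap e j r ∧ kap e j r ≠ 0) →
      (A.card : ℝ) ≤ C * N * (Real.log N) ^ (-δ)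

/-- Multihomogeneous equations. -/
def IsMulti2 {n : ℕ} {σ : Type} [Fintype σ] (k : σ → Fin n → ℕ)
    (G : MvPolynomial (σ ⊕ (Fin n × Fin 3)) ℤ) : Prop :=
  ∃ (D : ℕ) (δ : Fin n → ℕ), ∀ μ ∈ G.support, (∑ s, μ (Sum.inl s) = D) ∧
    ∀ i, (∑ s, μ (Sum.inl s) * k s i) + μ (Sum.inr (i, 0)) + μ (Sum.inr (i, 1)) +
      2 * μ (Sum.inr (i, 2)) = δ i

/-- The point with coordinates `ζ`, `x (i, 0) = p i`, `x (i, 1) = q i`, `x (i, 2) = w i` satisfies
all equations in `I`. -/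
def Sol2 {n : ℕ} {σ : Type} {R : Type*} [CommRing R]
    (I : Set (MvPolynomial (σ ⊕ (Fin n × Fin 3)) ℤ)) (ζ : σ → R) (x : Fin n × Fin 3 → R) : Prop :=
  ∀ G ∈ I, MvPolynomial.aeval (Sum.elim ζ x) G = 0

/-- Homogeneous coordinates `(p, q, w)` of the branch point `t`. -/
def rep3 (a : Fin 3 → ℤ) : Option (Fin 3) → Fin 3 → ℤ
  | none => ![1, 0, 0]
  | some j => ![a j, 1, 0]

/-- The fibre over the branch point `ε` has no point modulo `r`. -/
def NoPoint2 {n : ℕ} {σ : Type} (a : Fin n → Fin 3 → ℤ)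
    (I : Set (MvPolynomial (σ ⊕ (Fin n × Fin 3)) ℤ)) (ε : Fin n → Option (Fin 3)) (r : ℕ) : Prop :=
  ∀ ζ : σ → ZMod r, Sol2 I ζ (fun j => (rep3 (a j.1) (ε j.1) j.2 : ZMod r)) → ζ = 0

end Pool.Agent.Helper11.TW
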