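import Pool.Agent.Helper11.TW.Descent
import Pool.Agent.Helper11.TW.Defs2
import Pool.Agent.Helper43.TW.CountCore

/-!
# The number of quadratic twists of a product of elliptic curves with a point of restricted type

Second version of `Pool.Agent.Helper11.TW.Count`: same proof with `HBS2` instead of `HBS`.
-/

namespace Pool.Agent.Helper11.TW

theorem count_bound2 (hHB : HBS2) (n : ℕ) (a : Fin n → Fin 3 → ℤ)
    (ha : ∀ i, Function.Injective (a i)) (S : (Fin n → Option (Fin 3)) → ℕ → Prop) (κ₀ : ℝ)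
    (hS : ∀ ε, DensePrimes κ₀ (S ε)) (δ : ℝ) (hδ : 0 < δ) (hδκ : δ < κ₀) :
    ∃ C : ℝ, ∀ N : ℕ, 2 ≤ N → ∀ A : Finset ℤ,
      (∀ d ∈ A, Squarefree d ∧ |d| ≤ N ∧ ∃ p q w : Fin n → ℤ,
        (∀ i, IsCoprime (p i) (q i) ∧ d * w i ^ 2 = quartic (a i) (p i) (q i)) ∧
        ∀ r : ℕ, r.Prime → (r : ℤ) ∣ d → ∀ ε : Fin n → Option (Fin 3),
          (∀ i, (r : ℤ) ∣ lin (a i) (ε i) (p i) (q i)) → ¬ S ε r) →
      (A.card : ℝ) ≤ C * N * (Real.log N) ^ (-δ) := by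
  obtain ⟨K, hK⟩ := Helper43.TW.count_core n a ha
  obtain ⟨C, hC⟩ := hHB (Fin n × Bool) (fun e r => S (Count_dec e) r) κ₀
    (fun e => hS (Count_dec e)) δ hδ hδκ
  exact ⟨K * C, fun N hN A hA => hK S C δ hC N hN A hA⟩

end Pool.Agent.Helper11.TW
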