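import Mathlib

/-!
# Quadratic twists of symmetric varieties over products of elliptic curves: definitions

For an elliptic curve `y² = (x - a 0) (x - a 1) (x - a 2)` the four branch points of the map `x` to the
projective line are indexed by `Option (Fin 3)`: `none` is the point at infinity, `some j` is `a j`.
-/

namespace Pool.Agent.Helper11.TW

/-- The linear form vanishing at the branch point `t`. -/
def lin (a : Fin 3 → ℤ) : Option (Fin 3) → ℤ → ℤ → ℤ
  | none, _, q => q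
  | some j, p, q => p - a j * q

/-- Homogeneous coordinates of the branch point `t`. -/
def rep (a : Fin 3 → ℤ) : Option (Fin 3) → ℤ × ℤ
  | none => (1, 0)
  | some j => (a j, 1)

/-- The product of the four linear forms, `q (p - a 0 q) (p - a 1 q) (p - a 2 q)`. -/
def quartic (a : Fin 3 → ℤ) (p q : ℤ) : ℤ :=
  q * (p - a 0 * q) * (p - a 1 * q) * (p - a 2 * q)

/-- The two bits of a branch point. -/
def code : Option (Fin 3) → Bool → Bool
  | none, _ => false
  | some 0, b => b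
  | some 1, b => !b
  | some 2, _ => true

/-- The primes dividing `d` but not `B`. -/
def good (d : ℤ) (B : ℕ) : Finset ℕ := d.natAbs.primeFactors.filter (fun r => ¬ r ∣ B)

/-- The product of the good primes `r` dividing `d` with `τ r = t`. -/
def part {α : Type} [DecidableEq α] (d : ℤ) (B : ℕ) (τ : ℕ → α) (t : α) : ℕ :=
  ∏ r ∈ (good d B).filter (fun r => τ r = t), r

/-- `G` is homogeneous in the variables `ζ s` and multihomogeneous in the pairs
`(p i, q i) = (X (inr (i, 0)), X (inr (i, 1)))`, where `ζ s` has degree `k s i` in the `i`-th grading. -/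
def IsMulti {n : ℕ} {σ : Type} [Fintype σ] (k : σ → Fin n → ℕ)
    (G : MvPolynomial (σ ⊕ (Fin n × Fin 2)) ℤ) : Prop :=
  ∃ (D : ℕ) (δ : Fin n → ℕ), ∀ μ ∈ G.support, (∑ s, μ (Sum.inl s) = D) ∧
    ∀ i, (∑ s, μ (Sum.inl s) * k s i) + μ (Sum.inr (i, 0)) + μ (Sum.inr (i, 1)) = δ i

/-- The point with coordinates `ζ`, `p`, `q` satisfies all equations in `I`. -/
def Sol {n : ℕ} {σ : Type} {R : Type*} [CommRing R] (I : Set (MvPolynomial (σ ⊕ (Fin n × Fin 2)) ℤ))
    (ζ : σ → R) (p q : Fin n → R) : Prop :=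
  ∀ G ∈ I, MvPolynomial.aeval (Sum.elim ζ (fun j : Fin n × Fin 2 => ![p j.1, q j.1] j.2)) G = 0

/-- The fibre over the branch point `ε` has no point modulo `r`. -/
def NoPoint {n : ℕ} {σ : Type} (a : Fin n → Fin 3 → ℤ)
    (I : Set (MvPolynomial (σ ⊕ (Fin n × Fin 2)) ℤ)) (ε : Fin n → Option (Fin 3)) (r : ℕ) : Prop :=
  ∀ ζ : σ → ZMod r, Sol I ζ (fun i => ((rep (a i) (ε i)).1 : ZMod r))
    (fun i => ((rep (a i) (ε i)).2 : ZMod r)) → ζ = 0

/-- The statement of the abstract counting theorem (theorem `HB` of `Pool.Agent.Helper36.TW.Main`). -/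
def HBS : Prop :=
  ∀ (J : Type) [Fintype J] [DecidableEq J] (S : (J → Bool) → ℕ → Prop),
    (∀ e, ∃ M α T : ℕ, 0 < M ∧ Nat.Coprime α M ∧
      ∀ r : ℕ, r.Prime → T < r → r % M = α % M → S e r) →
    ∃ C δ : ℝ, 0 < δ ∧ ∀ (kap : (J → Bool) → J → ℕ → ℤ) (N : ℕ), 2 ≤ N → ∀ A : Finset ℕ,
      (∀ m ∈ A, m ≤ N ∧ Odd m ∧ Squarefree m ∧ ∃ D : (J → Bool) → ℕ, ∏ e, D e = m ∧
        ∀ e, ∀ r : ℕ, r.Prime → r ∣ D e → ¬ S e r ∧
          ∀ j, jacobiSym (∏ e' ∈ Finset.univ.filter (fun e' : J → Bool => e' j ≠ e j), (D e' : ℤ)) r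
            = kap e j r ∧ kap e j r ≠ 0) →
      (A.card : ℝ) ≤ C * N * (Real.log N) ^ (-δ)

end Pool.Agent.Helper11.TW
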