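import Pool.Agent.Helper11.TW.Defs

/-!
# Two-descent on a quadratic twist at the primes dividing the twist

PROOF (to be filled in).  Write `l t = lin a t p q`.  For a good prime `r` (not dividing `B`) at most one
`l t` is divisible by `r`: `r ∣ q` and `r ∣ p - a j q` give `r ∣ p, q`; `r ∣ p - a i q` and `r ∣ p - a j q`
give `r ∣ (a i - a j) q`, so `r ∣ q` and `r ∣ p`.

Case 1: all `l t ≠ 0`.  Then `l t = s_t * A_t * z_t ^ 2` with `A_t` a squarefree natural number
(`Nat.sq_mul_squarefree`) and a sign `s_t`; put `u t = s_t * (product of the primes dividing A_t and B)`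
and `τ r =` the index `t` with `r ∣ l t` (for `r ∣ d` good: exists since `r ∣ d w² = quartic`).  For good
`r`: `r ∣ A_t` iff `r ∣ d` and `r ∣ l t` (the valuation of `l t` at `r` is that of `d w²`, which is odd
iff `r ∣ d`, as `d` is squarefree); so `A_t = (product of the primes dividing A_t and B) * part d B τ t`
and `l t = u t * part d B τ t * z_t ^ 2`.  For `r` good, `τ r = t0`, `t, t' ≠ t0`: modulo `r` one has
`(p, q) = lam * rep a t0`, hence `l t * l t' = lam ^ 2 * lin a t (rep a t0) * lin a t' (rep a t0)`, and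
everything is a unit modulo `r`, so `u t * u t' * part t * part t' * lin a t (rep) * lin a t' (rep)` is a
non-zero square modulo `r` (use `jacobiSym` for a prime: `jacobiSym.legendreSym.to_jacobiSym`,
`legendreSym.eq_one_iff`, or `jacobiSym.mul_left` and `jacobiSym` of squares).

Case 2: `l t0 = 0` for some `t0`.  Then `(p, q) = ± rep a t0` (coprime), `τ r = t0` for all `r`,
`part t = 1` for `t ≠ t0`, `u t = lin a t (rep a t0)` for `t ≠ t0` (a divisor of `B` up to sign, or
`± 1`), `u t0 = 1`.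

`U` is the finite set of all functions `u` with values in `[-B, B]` (nonzero) all of whose prime
divisors divide `B` (`Fintype.piFinset` of a filtered `Finset.Icc (-B) B`; note the product of distinct
primes dividing `B` is at most `B`).

-/

namespace Pool.Agent.Helper11.TW

theorem Descent_quartic (a : Fin 3 → ℤ) (p q : ℤ) :
    quartic a p q = ∏ t : Option (Fin 3), lin a t p q := by
  rw [Fintype.prod_option, Fin.prod_univ_three]
  simp only [quartic, lin]
  ring

theorem Descent_unique {a : Fin 3 → ℤ} {B : ℕ} (hB : ∀ i j, i ≠ j → (a i - a j) ∣ (B : ℤ))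
    {p q : ℤ} (hpq : IsCoprime p q) {r : ℕ} (hr : r.Prime) (hrB : ¬ r ∣ B)
    {t t' : Option (Fin 3)} (h : (r : ℤ) ∣ lin a t p q) (h' : (r : ℤ) ∣ lin a t' p q) :
    t = t' := by
  have hrp : Prime (r : ℤ) := Nat.prime_iff_prime_int.1 hr
  have hno : ¬ ((r : ℤ) ∣ p ∧ (r : ℤ) ∣ q) := fun h1 =>
    hrp.not_isUnit (hpq.isUnit_of_dvd' h1.1 h1.2)
  have hrB' : ¬ (r : ℤ) ∣ (B : ℤ) := fun h => hrB (Int.natCast_dvd_natCast.1 h)
  have hp : ∀ c : ℤ, (r : ℤ) ∣ p - c * q → (r : ℤ) ∣ q → (r : ℤ) ∣ p := by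
    intro c h1 h2
    have h3 := dvd_add h1 (h2.mul_left c)
    rwa [sub_add_cancel] at h3
  rcases t with _ | i <;> rcases t' with _ | j
  · rfl
  · exact absurd ⟨hp (a j) h' h, h⟩ hno
  · exact absurd ⟨hp (a i) h h', h'⟩ hno
  · by_contra hne
    have hij : i ≠ j := fun h => hne (by rw [h])
    simp only [lin] at h h'
    have h1 : (r : ℤ) ∣ (a i - a j) * q := by
      have h2 := dvd_sub h' h
      have e : p - a j * q - (p - a i * q) = (a i - a j) * q := by ring
      rwa [e] at h2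
    rcases hrp.dvd_or_dvd h1 with h2 | h2
    · exact hrB' (h2.trans (hB i j hij))
    · exact hno ⟨hp (a i) h h2, h2⟩

theorem Descent_mod (a : Fin 3 → ℤ) {p q : ℤ} (hpq : IsCoprime p q) {r : ℕ} (hr : r.Prime)
    {t0 : Option (Fin 3)} (h : (r : ℤ) ∣ lin a t0 p q) :
    ∃ m : ℤ, ¬ (r : ℤ) ∣ m ∧
      ∀ t, (r : ℤ) ∣ lin a t p q - m * lin a t (rep a t0).1 (rep a t0).2 := by
  have hrp : Prime (r : ℤ) := Nat.prime_iff_prime_int.1 hr
  have hno : ¬ ((r : ℤ) ∣ p ∧ (r : ℤ) ∣ q) := fun h1 =>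
    hrp.not_isUnit (hpq.isUnit_of_dvd' h1.1 h1.2)
  rcases t0 with _ | j
  · simp only [lin] at h
    refine ⟨p, fun h1 => hno ⟨h1, h⟩, fun t => ?_⟩
    rcases t with _ | i
    · simpa only [lin, rep, mul_zero, sub_zero] using h
    · have e : lin a (some i) p q - p * lin a (some i) (rep a none).1 (rep a none).2 =
          (-a i) * q := by
        simp only [lin, rep]
        ring
      rw [e]
      exact h.mul_left _
  · simp only [lin] at h
    refine ⟨q, fun h1 => hno ⟨?_, h1⟩, fun t => ?_⟩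
    · have h3 := dvd_add h (h1.mul_left (a j))
      rwa [sub_add_cancel] at h3
    · rcases t with _ | i
      · simp [lin, rep]
      · have e : lin a (some i) p q - q * lin a (some i) (rep a (some j)).1 (rep a (some j)).2 =
            p - a j * q := by
          simp only [lin, rep]
          ring
        rw [e]
        exact h

theorem Descent_jac {r : ℕ} (hr : r.Prime) {X m n : ℤ} (h : (r : ℤ) ∣ X * m ^ 2 - n ^ 2)
    (hn : ¬ (r : ℤ) ∣ n) : jacobiSym X r = 1 := by
  have hrp : Prime (r : ℤ) := Nat.prime_iff_prime_int.1 hr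
  have h0 : n ^ 2 ≡ X * m ^ 2 [ZMOD r] := Int.modEq_iff_dvd.2 h
  have h1 : jacobiSym (X * m ^ 2) r = jacobiSym (n ^ 2) r := jacobiSym.mod_left' h0.symm
  have hc : IsCoprime n (r : ℤ) := ((Prime.coprime_iff_not_dvd hrp).2 hn).symm
  have h2 : jacobiSym (n ^ 2) r = 1 := by
    rw [jacobiSym.pow_left]
    exact jacobiSym.sq_one (Int.isCoprime_iff_gcd_eq_one.1 hc)
  rw [h2, jacobiSym.mul_left, jacobiSym.pow_left] at h1
  rcases jacobiSym.trichotomy m r with h3 | h3 | h3
  · rw [h3] at h1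
    norm_num at h1
  · rw [h3] at h1
    simpa using h1
  · rw [h3] at h1
    simpa using h1

theorem Descent_core {B : ℕ} (hB0 : B ≠ 0) {d w : ℤ} (hd : Squarefree d)
    (l : Option (Fin 3) → ℤ) (hl : ∀ t, l t ≠ 0) (hprod : d * w ^ 2 = ∏ t, l t)
    (huniq : ∀ r : ℕ, r.Prime → ¬ r ∣ B → ∀ t t', (r : ℤ) ∣ l t → (r : ℤ) ∣ l t' → t = t')
    (τ : ℕ → Option (Fin 3)) (hτ : ∀ r ∈ good d B, (r : ℤ) ∣ l (τ r)) (t : Option (Fin 3)) :
    ∃ u z : ℤ, l t = u * (part d B τ t : ℤ) * z ^ 2 ∧ u ≠ 0 ∧ |u| ≤ B ∧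
      ∀ r : ℕ, r.Prime → (r : ℤ) ∣ u → r ∣ B := by
  obtain ⟨A, z, hzA, hA⟩ := Nat.sq_mul_squarefree (l t).natAbs
  have hL0 : (l t).natAbs ≠ 0 := Int.natAbs_ne_zero.2 (hl t)
  have hA0 : A ≠ 0 := by
    rintro rfl
    exact hL0 (by rw [← hzA, mul_zero])
  have hz0 : z ≠ 0 := by
    rintro rfl
    exact hL0 (by rw [← hzA]; ring)
  have hd0 : d ≠ 0 := hd.ne_zero
  have hP0 : ∏ t, l t ≠ 0 := Finset.prod_ne_zero_iff.2 fun t _ => hl t
  have hw0 : w ≠ 0 := by
    rintro rfl
    exact hP0 (by rw [← hprod]; ring)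
  have hdS : Squarefree d.natAbs := Int.squarefree_natAbs.2 hd
  have hD0 : d.natAbs ≠ 0 := Int.natAbs_ne_zero.2 hd0
  have hAl : ∀ r : ℕ, r ∣ A → (r : ℤ) ∣ l t := by
    intro r h
    rw [Int.natCast_dvd, ← hzA]
    exact h.mul_left _
  have key : ∀ r : ℕ, r.Prime → ¬ r ∣ B → (r : ℤ) ∣ l t → (r ∣ A ↔ r ∣ d.natAbs) := by
    intro r hr hrB hrl
    have hrp : Prime (r : ℤ) := Nat.prime_iff_prime_int.1 hr
    obtain ⟨M, hMdef⟩ : ∃ M : ℤ, M = ∏ t' ∈ Finset.univ.erase t, l t' := ⟨_, rfl⟩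
    have hM : l t * M = d * w ^ 2 := by
      rw [hprod, hMdef]
      exact Finset.mul_prod_erase _ _ (Finset.mem_univ t)
    have hrM : ¬ (r : ℤ) ∣ M := by
      intro h
      rw [hMdef] at h
      obtain ⟨t', ht', h'⟩ := (hrp.dvd_finsetProd_iff _).1 h
      exact (Finset.mem_erase.1 ht').1 (huniq r hr hrB _ _ h' hrl)
    have hM0 : M ≠ 0 := by
      rw [hMdef]
      exact Finset.prod_ne_zero_iff.2 fun t _ => hl t
    have hrM' : ¬ r ∣ M.natAbs := fun h => hrM (Int.natCast_dvd.2 h)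
    have e1 : (z ^ 2 * A) * M.natAbs = d.natAbs * w.natAbs ^ 2 := by
      rw [hzA, ← Int.natAbs_mul, hM, Int.natAbs_mul, Int.natAbs_pow]
    have e2 : (z ^ 2 * A * M.natAbs).factorization r =
        (d.natAbs * w.natAbs ^ 2).factorization r := by rw [e1]
    rw [Nat.factorization_mul (mul_ne_zero (pow_ne_zero 2 hz0) hA0) (Int.natAbs_ne_zero.2 hM0),
      Nat.factorization_mul (pow_ne_zero 2 hz0) hA0,
      Nat.factorization_mul hD0 (pow_ne_zero 2 (Int.natAbs_ne_zero.2 hw0)),
      Nat.factorization_pow, Nat.factorization_pow] at e2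
    simp only [Finsupp.coe_add, Finsupp.coe_smul, Pi.add_apply, Pi.smul_apply,
      smul_eq_mul] at e2
    rw [Nat.factorization_eq_zero_of_not_dvd hrM'] at e2
    have e3 := hA.natFactorization_le_one r
    have e4 := hdS.natFactorization_le_one r
    rw [hr.dvd_iff_one_le_factorization hA0, hr.dvd_iff_one_le_factorization hD0]
    omega
  have hset : A.primeFactors.filter (fun r => ¬ r ∣ B) =
      (good d B).filter (fun r => τ r = t) := by
    ext r
    simp only [Finset.mem_filter, good, Nat.mem_primeFactors]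
    constructor
    · rintro ⟨⟨hr, hrA, -⟩, hrB⟩
      have hrl := hAl r hrA
      have hrd := (key r hr hrB hrl).1 hrA
      have hg : r ∈ good d B := by
        simp only [Finset.mem_filter, good, Nat.mem_primeFactors]
        exact ⟨⟨hr, hrd, hD0⟩, hrB⟩
      exact ⟨⟨⟨hr, hrd, hD0⟩, hrB⟩, huniq r hr hrB _ _ (hτ r hg) hrl⟩
    · rintro ⟨⟨⟨hr, hrd, -⟩, hrB⟩, hrt⟩
      have hg : r ∈ good d B := by
        simp only [Finset.mem_filter, good, Nat.mem_primeFactors]
        exact ⟨⟨hr, hrd, hD0⟩, hrB⟩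
      have hrl := hτ r hg
      rw [hrt] at hrl
      exact ⟨⟨hr, (key r hr hrB hrl).2 hrd, hA0⟩, hrB⟩
  obtain ⟨Q, hQdef⟩ : ∃ Q : ℕ, Q = ∏ r ∈ A.primeFactors.filter (fun r => r ∣ B), r := ⟨_, rfl⟩
  have hAQ : A = Q * part d B τ t := by
    rw [hQdef, part, ← hset, Finset.prod_filter_mul_prod_filter_not,
      Nat.prod_primeFactors_of_squarefree hA]
  have hQB : Q ∣ B := by
    rw [hQdef]
    refine Finset.prod_primes_dvd B ?_ ?_
    · intro r hr
      exact (Nat.prime_of_mem_primeFactors (Finset.mem_filter.1 hr).1).prime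
    · intro r hr
      exact (Finset.mem_filter.1 hr).2
  have hQ0 : Q ≠ 0 := fun h => hB0 (by rw [h] at hQB; exact Nat.eq_zero_of_zero_dvd hQB)
  have hs : (l t).sign = 1 ∨ (l t).sign = -1 := by
    rcases lt_or_gt_of_ne (hl t) with h | h
    · exact Or.inr (Int.sign_eq_neg_one_of_neg h)
    · exact Or.inl (Int.sign_eq_one_of_pos h)
  have habs : |(l t).sign * (Q : ℤ)| = Q := by
    rcases hs with h | h <;> rw [h] <;> simp
  refine ⟨(l t).sign * Q, z, ?_, ?_, ?_, ?_⟩
  · have h1 : l t = (l t).sign * ((l t).natAbs : ℤ) := (Int.sign_mul_natAbs (l t)).symm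
    rw [← hzA, hAQ] at h1
    rw [h1]
    have h2 : ((l t).sign * (((z ^ 2 * (Q * part d B τ t) : ℕ)) : ℤ)).sign = (l t).sign := by
      rw [← h1]
    rw [h2]
    push_cast
    ring
  · intro h
    rcases mul_eq_zero.1 h with h1 | h1
    · rcases hs with h2 | h2 <;> rw [h2] at h1 <;> norm_num at h1
    · exact hQ0 (by exact_mod_cast h1)
  · rw [habs]
    exact_mod_cast Nat.le_of_dvd (Nat.pos_of_ne_zero hB0) hQB
  · intro r hr h
    have h1 : (r : ℤ) ∣ (Q : ℤ) := by
      rcases hs with h2 | h2 <;> rw [h2] at h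
      · simpa using h
      · simpa using h
    exact (Int.natCast_dvd_natCast.1 h1).trans hQB

/-- the values of the linear forms at the branch points -/
theorem Descent_rep {a : Fin 3 → ℤ} {B : ℕ}
    (hB : ∀ i j, i ≠ j → (a i - a j) ∣ (B : ℤ)) {t t0 : Option (Fin 3)} (h : t ≠ t0) :
    lin a t (rep a t0).1 (rep a t0).2 ∣ (B : ℤ) := by
  rcases t with _ | i <;> rcases t0 with _ | j
  · exact absurd rfl h
  · simp [lin, rep]
  · simp [lin, rep]
  · have hij : i ≠ j := fun h' => h (by rw [h'])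
    have e : lin a (some i) (rep a (some j)).1 (rep a (some j)).2 = a j - a i := by
      simp [lin, rep]
    rw [e]
    exact hB j i hij.symm

theorem Descent_zero {a : Fin 3 → ℤ} {p q : ℤ} (hpq : IsCoprime p q) {t0 : Option (Fin 3)}
    (h : lin a t0 p q = 0) (t : Option (Fin 3)) :
    ∃ s : ℤ, s ^ 2 = 1 ∧ lin a t p q = s * lin a t (rep a t0).1 (rep a t0).2 := by
  rcases t0 with _ | j
  · simp only [lin] at h
    rw [h, isCoprime_zero_right] at hpq
    refine ⟨p, ?_, ?_⟩
    · rcases Int.isUnit_iff.1 hpq with h1 | h1 <;> rw [h1] <;> norm_num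
    · rcases t with _ | i <;> simp [lin, rep, h]
  · simp only [lin] at h
    have hp : p = a j * q := by linarith
    have hq : IsUnit q := by
      rw [hp] at hpq
      exact hpq.isUnit_of_dvd' (Dvd.intro_left _ rfl) dvd_rfl
    refine ⟨q, ?_, ?_⟩
    · rcases Int.isUnit_iff.1 hq with h1 | h1 <;> rw [h1] <;> norm_num
    · rcases t with _ | i
      · simp [lin, rep]
      · simp only [lin, rep]
        rw [hp]
        ring

/-- Let `d w² = q (p - a 0 q) (p - a 1 q) (p - a 2 q)` with coprime `p, q` and squarefree `d`.  Each good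
prime `r ∣ d` divides exactly one linear form, the one with index `τ r`, and the other linear forms
satisfy `lin t * lin t' = (unit part) * part t * part t' * square`. -/
theorem descent_one (a : Fin 3 → ℤ) (ha : Function.Injective a) (B : ℕ) (hB0 : B ≠ 0) (h2 : 2 ∣ B)
    (hB : ∀ i j, i ≠ j → (a i - a j) ∣ (B : ℤ)) :
    ∃ U : Finset (Option (Fin 3) → ℤ),
      (∀ u ∈ U, ∀ t, u t ≠ 0 ∧ ∀ r : ℕ, r.Prime → (r : ℤ) ∣ u t → r ∣ B) ∧
      ∀ d p q w : ℤ, Squarefree d → IsCoprime p q → d * w ^ 2 = quartic a p q →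
        ∃ u ∈ U, ∃ τ : ℕ → Option (Fin 3), ∀ r ∈ good d B,
          (r : ℤ) ∣ lin a (τ r) p q ∧
          ∀ t t', t ≠ t' → t ≠ τ r → t' ≠ τ r →
            jacobiSym (u t * u t' * lin a t (rep a (τ r)).1 (rep a (τ r)).2 *
              lin a t' (rep a (τ r)).1 (rep a (τ r)).2 * (part d B τ t : ℤ) * (part d B τ t' : ℤ)) r
              = 1 := by
  classical
  let V : Finset ℤ := (Finset.Icc (-(B : ℤ)) B).filter
    (fun x => x ≠ 0 ∧ ∀ r : ℕ, r.Prime → (r : ℤ) ∣ x → r ∣ B)
  have hV : ∀ x : ℤ, x ∈ V ↔ |x| ≤ B ∧ x ≠ 0 ∧ ∀ r : ℕ, r.Prime → (r : ℤ) ∣ x → r ∣ B := by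
    intro x
    simp only [V, Finset.mem_filter, Finset.mem_Icc, abs_le]
  refine ⟨Fintype.piFinset fun _ => V, fun u hu t => ?_, ?_⟩
  · exact ((hV _).1 (Fintype.mem_piFinset.1 hu t)).2
  intro d p q w hd hpq hquart
  have hd0 : d ≠ 0 := hd.ne_zero
  have hgood : ∀ r ∈ good d B, r.Prime ∧ r ∣ d.natAbs ∧ ¬ r ∣ B := by
    intro r hr
    simp only [good, Finset.mem_filter, Nat.mem_primeFactors] at hr
    exact ⟨hr.1.1, hr.1.2.1, hr.2⟩
  by_cases hz : ∃ t0, lin a t0 p q = 0
  · -- a branch point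
    obtain ⟨t0, ht0⟩ := hz
    refine ⟨fun t => if t = t0 then 1 else lin a t (rep a t0).1 (rep a t0).2,
      Fintype.mem_piFinset.2 fun t => ?_, fun _ => t0, ?_⟩
    · rw [hV]
      by_cases ht : t = t0
      · rw [if_pos ht]
        refine ⟨?_, one_ne_zero, fun r hr h => ?_⟩
        · rw [abs_one]
          exact_mod_cast Nat.one_le_iff_ne_zero.2 hB0
        · have h1 : r ∣ 1 := by exact_mod_cast h
          exact absurd (Nat.dvd_one.1 h1) hr.one_lt.ne'
      · rw [if_neg ht]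
        have h1 := Descent_rep hB ht
        have hB0' : (B : ℤ) ≠ 0 := by exact_mod_cast hB0
        refine ⟨?_, fun h => hB0' ?_, fun r hr h => ?_⟩
        · have h2 := Int.le_of_dvd (by positivity) ((abs_dvd _ _).2 h1)
          exact h2
        · rw [h] at h1
          exact zero_dvd_iff.1 h1
        · exact Int.natCast_dvd_natCast.1 (h.trans h1)
    · intro r hr
      obtain ⟨hrp, hrd, hrB⟩ := hgood r hr
      refine ⟨by rw [ht0]; exact dvd_zero _, fun t t' _ ht ht' => ?_⟩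
      have hpart : ∀ t, t ≠ t0 → part d B (fun _ => t0) t = 1 := by
        intro t ht
        rw [part, Finset.filter_false_of_mem (fun r _ => fun h => ht h.symm),
          Finset.prod_empty]
      have hu : ∀ t, t ≠ t0 → ¬ (r : ℤ) ∣ lin a t (rep a t0).1 (rep a t0).2 := fun t ht h =>
        hrB (Int.natCast_dvd_natCast.1 (h.trans (Descent_rep hB ht)))
      have hrp' : Prime (r : ℤ) := Nat.prime_iff_prime_int.1 hrp
      simp only [if_neg ht, if_neg ht', hpart t ht, hpart t' ht']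
      refine Descent_jac hrp (m := 1) (n := lin a t (rep a t0).1 (rep a t0).2 *
        lin a t' (rep a t0).1 (rep a t0).2) ?_ ?_
      · push_cast
        ring_nf
        exact dvd_zero _
      · intro h
        rcases hrp'.dvd_or_dvd h with h1 | h1
        · exact hu t ht h1
        · exact hu t' ht' h1
  · -- the general case
    have hl : ∀ t, lin a t p q ≠ 0 := fun t h => hz ⟨t, h⟩
    have hprod : d * w ^ 2 = ∏ t, lin a t p q := by rw [hquart, Descent_quartic]
    have hex : ∀ r ∈ good d B, ∃ t, (r : ℤ) ∣ lin a t p q := by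
      intro r hr
      obtain ⟨hrp, hrd, hrB⟩ := hgood r hr
      have h1 : (r : ℤ) ∣ ∏ t, lin a t p q := by
        rw [← hprod]
        exact (Int.natCast_dvd.2 hrd).mul_right _
      obtain ⟨t, -, ht⟩ := ((Nat.prime_iff_prime_int.1 hrp).dvd_finsetProd_iff _).1 h1
      exact ⟨t, ht⟩
    have hτex : ∃ τ : ℕ → Option (Fin 3), ∀ r ∈ good d B, (r : ℤ) ∣ lin a (τ r) p q := by
      refine ⟨fun r => if h : ∃ t, (r : ℤ) ∣ lin a t p q then h.choose else none, ?_⟩
      intro r hr
      have h := hex r hr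
      simp only [dif_pos h]
      exact h.choose_spec
    obtain ⟨τ, hτ⟩ := hτex
    have huniq : ∀ r : ℕ, r.Prime → ¬ r ∣ B → ∀ t t', (r : ℤ) ∣ lin a t p q →
        (r : ℤ) ∣ lin a t' p q → t = t' := fun r hr hrB t t' h h' =>
      Descent_unique hB hpq hr hrB h h'
    choose u z huz using Descent_core hB0 hd (fun t => lin a t p q) hl hprod huniq τ hτ
    refine ⟨u, Fintype.mem_piFinset.2 fun t => (hV _).2 ⟨(huz t).2.2.1, (huz t).2.1,
      (huz t).2.2.2⟩, τ, fun r hr => ⟨hτ r hr, fun t t' _ ht ht' => ?_⟩⟩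
    obtain ⟨hrp, hrd, hrB⟩ := hgood r hr
    have hrp' : Prime (r : ℤ) := Nat.prime_iff_prime_int.1 hrp
    obtain ⟨m, hm, hmod⟩ := Descent_mod a hpq hrp (hτ r hr)
    obtain ⟨L, hL⟩ : ∃ L : Option (Fin 3) → ℤ,
        ∀ t, L t = lin a t (rep a (τ r)).1 (rep a (τ r)).2 := ⟨_, fun _ => rfl⟩
    rw [← hL, ← hL]
    have hnL : ∀ t, t ≠ τ r → ¬ (r : ℤ) ∣ L t := by
      intro t ht h
      have h1 := hmod t
      rw [← hL] at h1
      have h2 := dvd_add h1 (h.mul_left m)
      rw [sub_add_cancel] at h2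
      exact ht (huniq r hrp hrB _ _ h2 (hτ r hr))
    refine Descent_jac hrp (m := z t * z t') (n := m * (L t * L t')) ?_ ?_
    · have e1 := (huz t).1
      have e2 := (huz t').1
      have h1 := hmod t
      have h2 := hmod t'
      rw [← hL, e1] at h1
      rw [← hL, e2] at h2
      obtain ⟨c1, h1⟩ := h1
      obtain ⟨c2, h2⟩ := h2
      have h3 : u t * (part d B τ t : ℤ) * z t ^ 2 = m * L t + r * c1 := by linarith
      have h4 : u t' * (part d B τ t' : ℤ) * z t' ^ 2 = m * L t' + r * c2 := by linarith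
      have h5 : u t * u t' * L t * L t' * (part d B τ t : ℤ) * (part d B τ t' : ℤ) *
          (z t * z t') ^ 2 - (m * (L t * L t')) ^ 2 =
          L t * L t' * ((u t * (part d B τ t : ℤ) * z t ^ 2) *
            (u t' * (part d B τ t' : ℤ) * z t' ^ 2)) - (m * (L t * L t')) ^ 2 := by ring
      rw [h5, h3, h4]
      exact ⟨L t * L t' * (m * L t * c2 + c1 * (m * L t') + c1 * r * c2), by ring⟩
    · intro h
      rcases hrp'.dvd_or_dvd h with h1 | h1
      · exact hm h1
      · rcases hrp'.dvd_or_dvd h1 with h2 | h2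
        · exact hnL t ht h2
        · exact hnL t' ht' h2

end Pool.Agent.Helper11.TW
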