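import Pool.Agent.Helper11.TW.Defs
import Pool.Agent.Helper11.Cov.Geo2

/-!
# From a dense set of rational points to a rational solution of the equations

PROOF (to be filled in).  `Pool.Agent.Helper11.exists_specialisation` (file Pool/Agent/Helper11/Geo.lean)
with the elements `x i`, `y i`, `ζ s` and the nonzero element `ζ s0`; see `exists_onCover` in
Pool/Agent/Helper11/Cov/Geo2.lean and `exists_onPencil` in Pool/Agent/Helper11/Cov/Pencil.lean for two
proofs of exactly this shape.

-/

open AlgebraicGeometry CategoryTheory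

namespace Pool.Agent.Helper11.TW

/-- If the function field of an integral scheme over `ℚ` with a dense set of rational points contains
a solution of the equations (with `ζ ≠ 0`), the equations have a rational solution with `ζ ≠ 0`. -/
theorem exists_rational {n : ℕ} {σ : Type} [Fintype σ] (a : Fin n → Fin 3 → ℤ)
    (I : Set (MvPolynomial (σ ⊕ (Fin n × Fin 2)) ℤ)) (d : ℤ) {V : Scheme.{0}} [IsIntegral V]
    (f : V ⟶ Spec (CommRingCat.of ℚ)) (x y : Fin n → V.functionField) (ζ : σ → V.functionField)
    (hζ : ζ ≠ 0)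
    (hxy : ∀ i, (d : V.functionField) * y i ^ 2 =
      (x i - (a i 0 : V.functionField)) * (x i - (a i 1 : V.functionField)) *
        (x i - (a i 2 : V.functionField)))
    (hz : Sol I ζ x (fun _ => 1))
    (hdense : Dense (Pool.Agent.Helper11.rationalPoints f)) :
    ∃ (ζ' : σ → ℚ) (x' y' : Fin n → ℚ), ζ' ≠ 0 ∧
      (∀ i, (d : ℚ) * y' i ^ 2 = (x' i - (a i 0 : ℚ)) * (x' i - (a i 1 : ℚ)) * (x' i - (a i 2 : ℚ))) ∧
      Sol I ζ' x' (fun _ => 1) := by
  sorry

end Pool.Agent.Helper11.TW
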