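import Pool.Agent.Helper11.TW.Defs2
import Pool.Agent.Helper11.Cov.Geo2

/-!
# From a dense set of rational points to a rational solution of the equations (second version)
-/

open AlgebraicGeometry CategoryTheory

namespace Pool.Agent.Helper11.TW

/-- If the function field of an integral scheme over `ℚ` with a dense set of rational points contains
a solution of the equations (with `ζ ≠ 0`), the equations have a rational solution with `ζ ≠ 0`. -/
theorem exists_rational2 {n : ℕ} {σ : Type} [Fintype σ] (a : Fin n → Fin 3 → ℤ)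
    (I : Set (MvPolynomial (σ ⊕ (Fin n × Fin 3)) ℤ)) (d : ℤ) {V : Scheme.{0}} [IsIntegral V]
    (f : V ⟶ Spec (CommRingCat.of ℚ)) (x y : Fin n → V.functionField) (ζ : σ → V.functionField)
    (hζ : ζ ≠ 0)
    (hxy : ∀ i, y i ^ 2 = (d : V.functionField) * ((x i - (a i 0 : V.functionField)) *
      (x i - (a i 1 : V.functionField)) * (x i - (a i 2 : V.functionField))))
    (hz : Sol2 I ζ (fun j => ![x j.1, 1, y j.1] j.2))
    (hdense : Dense (Pool.Agent.Helper11.rationalPoints f)) :
    ∃ (ζ' : σ → ℚ) (x' y' : Fin n → ℚ), ζ' ≠ 0 ∧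
      (∀ i, y' i ^ 2 = (d : ℚ) * ((x' i - (a i 0 : ℚ)) * (x' i - (a i 1 : ℚ)) *
        (x' i - (a i 2 : ℚ)))) ∧
      Sol2 I ζ' (fun j => ![x' j.1, 1, y' j.1] j.2) := by
  sorry

end Pool.Agent.Helper11.TW
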