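import Pool.Agent.Helper11.TW.Defs2
import Pool.Agent.Helper13.TW.Spec

/-!
# From a dense set of rational points to a rational solution of the equations (third version)
-/

open AlgebraicGeometry CategoryTheory

namespace Pool.Agent.Helper11.TW

/-- If the function field of an integral scheme over `ℚ` with a dense set of rational points contains
a solution of the equations (with `ζ ≠ 0`), the equations have a rational solution with `ζ ≠ 0`. -/
theorem exists_rational3 {n : ℕ} {σ : Type} [Fintype σ] (a : Fin n → Fin 3 → ℤ)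
    (I : Set (MvPolynomial (σ ⊕ (Fin n × Fin 3)) ℤ)) (d : ℤ) {V : Scheme.{0}} [IsIntegral V]
    (f : V ⟶ Spec (CommRingCat.of ℚ)) (x y : Fin n → V.functionField) (ζ : σ → V.functionField)
    (hζ : ζ ≠ 0)
    (hxy : ∀ i, (d : V.functionField) * y i ^ 2 = (x i - (a i 0 : V.functionField)) *
      (x i - (a i 1 : V.functionField)) * (x i - (a i 2 : V.functionField)))
    (hz : Sol2 I ζ (fun j => ![x j.1, 1, y j.1] j.2))
    (hdense : Dense (Pool.Agent.Helper11.rationalPoints f)) :
    ∃ (ζ' : σ → ℚ) (x' y' : Fin n → ℚ), ζ' ≠ 0 ∧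
      (∀ i, (d : ℚ) * y' i ^ 2 = (x' i - (a i 0 : ℚ)) * (x' i - (a i 1 : ℚ)) *
        (x' i - (a i 2 : ℚ))) ∧
      Sol2 I ζ' (fun j => ![x' j.1, 1, y' j.1] j.2) := by
  obtain ⟨s₀, hs₀⟩ := Function.ne_iff.1 hζ
  obtain ⟨z', h0, hG⟩ := Pool.Agent.Helper13.TW.specialise f (τ := σ ⊕ (Fin n ⊕ Fin n))
    (Sum.elim ζ (Sum.elim x y)) (t₀ := Sum.inl s₀) hs₀ hdense
  refine ⟨fun s => z' (Sum.inl s), fun i => z' (Sum.inr (Sum.inl i)),
    fun i => z' (Sum.inr (Sum.inr i)), ?_, ?_, ?_⟩
  · intro h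
    exact h0 (congrFun h s₀)
  · intro i
    have h1 := hG (MvPolynomial.C d * MvPolynomial.X (Sum.inr (Sum.inr i)) ^ 2 -
      (MvPolynomial.X (Sum.inr (Sum.inl i)) - MvPolynomial.C (a i 0)) *
      (MvPolynomial.X (Sum.inr (Sum.inl i)) - MvPolynomial.C (a i 1)) *
      (MvPolynomial.X (Sum.inr (Sum.inl i)) - MvPolynomial.C (a i 2))) (by
        simp only [map_sub, map_mul, map_pow, MvPolynomial.aeval_X, MvPolynomial.aeval_C,
          Sum.elim_inr, Sum.elim_inl, eq_intCast]
        rw [sub_eq_zero]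
        simpa using hxy i)
    simp only [map_sub, map_mul, map_pow, MvPolynomial.aeval_X, MvPolynomial.aeval_C,
      eq_intCast] at h1
    rw [sub_eq_zero] at h1
    simpa using h1
  · intro G hGI
    let F : (σ ⊕ (Fin n × Fin 3)) → MvPolynomial (σ ⊕ (Fin n ⊕ Fin n)) ℤ :=
      Sum.elim (fun s => MvPolynomial.X (Sum.inl s))
        (fun j => ![MvPolynomial.X (Sum.inr (Sum.inl j.1)), 1,
          MvPolynomial.X (Sum.inr (Sum.inr j.1))] j.2)
    have key : ∀ {R : Type} [CommRing R] (w : σ ⊕ (Fin n ⊕ Fin n) → R),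
        (fun t => MvPolynomial.aeval w (F t)) =
          Sum.elim (fun s => w (Sum.inl s))
            (fun j : Fin n × Fin 3 => ![w (Sum.inr (Sum.inl j.1)), 1, w (Sum.inr (Sum.inr j.1))] j.2) := by
      intro R _ w
      funext t
      rcases t with s | ⟨i, j⟩
      · simp [F]
      · fin_cases j <;> simp [F]
    have h2 := hG (MvPolynomial.bind₁ F G) (by
      rw [MvPolynomial.aeval_bind₁, key]
      exact hz G hGI)
    rw [MvPolynomial.aeval_bind₁, key] at h2
    exact h2

end Pool.Agent.Helper11.TW
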