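import Pool.Agent.Helper11.TW.Defs

/-!
# Reduction modulo a prime of a rational point

PROOFS.  `sol_scale`: expand `G` in monomials; each monomial is multiplied by
`μ ^ D * ∏ lam i ^ δ i`.
`exists_integral`: choose `lam i ≠ 0` rational with `lam i * p i`, `lam i * q i` coprime integers
(then `w' i = lam i ^ 2 * w i` satisfies `d w' ^ 2 = quartic ∈ ℤ`, and `w'` is an integer because `d` is
squarefree); choose `μ ≠ 0` such that the
numbers `μ * (∏ lam i ^ k s i) * ζ s` are integers with greatest common divisor one; `sol_scale`.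
`not_noPoint`: modulo `r` one has `(p i, q i) = lam i • rep (a i) (ε i)` with `lam i` a unit; apply
`sol_scale` with the inverses of `lam i`; `ζ` stays nonzero.

-/

namespace Pool.Agent.Helper11.TW

/-- Multihomogeneity: scaling of the coordinates. -/
theorem sol_scale {n : ℕ} {σ : Type} [Fintype σ] {R : Type*} [CommRing R] (k : σ → Fin n → ℕ)
    (I : Set (MvPolynomial (σ ⊕ (Fin n × Fin 2)) ℤ)) (hI : ∀ G ∈ I, IsMulti k G)
    (ζ : σ → R) (p q : Fin n → R) (μ : R) (lam : Fin n → R) (h : Sol I ζ p q) :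
    Sol I (fun s => μ * (∏ i, lam i ^ k s i) * ζ s) (fun i => lam i * p i)
      (fun i => lam i * q i) := by
  intro G hG
  obtain ⟨D, δ, hm⟩ := hI G hG
  have h0 := h G hG
  rw [MvPolynomial.aeval_def, MvPolynomial.eval₂_eq'] at h0 ⊢
  have key : ∀ m ∈ G.support,
      (algebraMap ℤ R) (MvPolynomial.coeff m G) *
        ∏ x, (Sum.elim (fun s => μ * (∏ i, lam i ^ k s i) * ζ s)
          (fun j : Fin n × Fin 2 => ![lam j.1 * p j.1, lam j.1 * q j.1] j.2)) x ^ m x
      = (μ ^ D * ∏ i, lam i ^ δ i) * ((algebraMap ℤ R) (MvPolynomial.coeff m G) *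
        ∏ x, (Sum.elim ζ (fun j : Fin n × Fin 2 => ![p j.1, q j.1] j.2)) x ^ m x) := by
    intro m hmm
    obtain ⟨hD, hδ⟩ := hm m hmm
    simp only [Fintype.prod_sum_type, Sum.elim_inl, Sum.elim_inr, Fintype.prod_prod_type,
      Fin.prod_univ_two, Matrix.cons_val_zero, Matrix.cons_val_one]
    have e1 : ∏ s, (μ * (∏ i, lam i ^ k s i) * ζ s) ^ m (Sum.inl s)
        = μ ^ D * (∏ i, lam i ^ (∑ s, m (Sum.inl s) * k s i)) * ∏ s, ζ s ^ m (Sum.inl s) := by
      simp only [mul_pow, Finset.prod_mul_distrib]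
      rw [Finset.prod_pow_eq_pow_sum, hD]
      congr 2
      simp only [← Finset.prod_pow, ← pow_mul]
      rw [Finset.prod_comm]
      refine Finset.prod_congr rfl fun i _ => ?_
      rw [Finset.prod_pow_eq_pow_sum]
      congr 1
      exact Finset.sum_congr rfl fun s _ => mul_comm _ _
    have e2 : ∏ i, ((lam i * p i) ^ m (Sum.inr (i, 0)) * (lam i * q i) ^ m (Sum.inr (i, 1)))
        = (∏ i, lam i ^ (m (Sum.inr (i, 0)) + m (Sum.inr (i, 1)))) *
          ∏ i, (p i ^ m (Sum.inr (i, 0)) * q i ^ m (Sum.inr (i, 1))) := by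
      rw [← Finset.prod_mul_distrib]
      refine Finset.prod_congr rfl fun i _ => ?_
      rw [mul_pow, mul_pow, pow_add]
      ring
    have e3 : (∏ i, lam i ^ δ i) = (∏ i, lam i ^ (∑ s, m (Sum.inl s) * k s i)) *
        ∏ i, lam i ^ (m (Sum.inr (i, 0)) + m (Sum.inr (i, 1))) := by
      rw [← Finset.prod_mul_distrib]
      refine Finset.prod_congr rfl fun i _ => ?_
      rw [← hδ i, ← pow_add, add_assoc]
    rw [e1, e2, e3]
    ring
  rw [Finset.sum_congr rfl key, ← Finset.mul_sum, h0, mul_zero]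

private lemma reduce_map {n : ℕ} {σ : Type} {R S : Type*} [CommRing R] [CommRing S]
    (f : R →+* S) (G : MvPolynomial (σ ⊕ (Fin n × Fin 2)) ℤ) (ζ : σ → R) (p q : Fin n → R) :
    MvPolynomial.aeval (Sum.elim (fun s => f (ζ s))
      (fun j : Fin n × Fin 2 => ![f (p j.1), f (q j.1)] j.2)) G
      = f (MvPolynomial.aeval (Sum.elim ζ (fun j : Fin n × Fin 2 => ![p j.1, q j.1] j.2)) G) := by
  have h := MvPolynomial.comp_aeval_apply
    (Sum.elim ζ (fun j : Fin n × Fin 2 => ![p j.1, q j.1] j.2)) f.toIntAlgHom G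
  have h2 : f (MvPolynomial.aeval (Sum.elim ζ (fun j : Fin n × Fin 2 => ![p j.1, q j.1] j.2)) G)
      = f.toIntAlgHom (MvPolynomial.aeval
        (Sum.elim ζ (fun j : Fin n × Fin 2 => ![p j.1, q j.1] j.2)) G) := rfl
  rw [h2, h]
  congr 2
  funext x
  rcases x with s | ⟨i, j⟩
  · rfl
  · fin_cases j <;> rfl

private lemma reduce_sol_map {n : ℕ} {σ : Type} {R S : Type*} [CommRing R] [CommRing S]
    (f : R →+* S) (I : Set (MvPolynomial (σ ⊕ (Fin n × Fin 2)) ℤ)) (ζ : σ → R)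
    (p q : Fin n → R) (h : Sol I ζ p q) :
    Sol I (fun s => f (ζ s)) (fun i => f (p i)) (fun i => f (q i)) := by
  intro G hG
  have := reduce_map f G ζ p q
  rw [h G hG, map_zero] at this
  exact this

private lemma reduce_sol_of_map {n : ℕ} {σ : Type} {R S : Type*} [CommRing R] [CommRing S]
    (f : R →+* S) (hf : Function.Injective f) (I : Set (MvPolynomial (σ ⊕ (Fin n × Fin 2)) ℤ))
    (ζ : σ → R) (p q : Fin n → R)
    (h : Sol I (fun s => f (ζ s)) (fun i => f (p i)) (fun i => f (q i))) : Sol I ζ p q := by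
  intro G hG
  have h1 := reduce_map f G ζ p q
  have h2 := h G hG
  apply hf
  rw [map_zero, ← h1]
  exact h2

private lemma reduce_coprime (p q : ℚ) (h : p ≠ 0 ∨ q ≠ 0) :
    ∃ (lam : ℚ) (p' q' : ℤ), lam ≠ 0 ∧ IsCoprime p' q' ∧ (p' : ℚ) = lam * p ∧ (q' : ℚ) = lam * q := by
  by_cases hq : q = 0
  · have hp : p ≠ 0 := by
      rcases h with h | h
      · exact h
      · exact absurd hq h
    refine ⟨p⁻¹, 1, 0, inv_ne_zero hp, isCoprime_one_left, ?_, ?_⟩
    · rw [inv_mul_cancel₀ hp]; norm_num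
    · rw [hq]; norm_num
  · refine ⟨(p / q).den / q, (p / q).num, (p / q).den, ?_, ?_, ?_, ?_⟩
    · exact div_ne_zero (by exact_mod_cast (p / q).den_ne_zero) hq
    · have := (p / q).reduced
      rw [Int.isCoprime_iff_gcd_eq_one]
      exact this
    · have h1 : ((p / q).num : ℚ) / ((p / q).den : ℚ) = p / q := Rat.num_div_den _
      have h2 : ((p / q).den : ℚ) ≠ 0 := by exact_mod_cast (p / q).den_ne_zero
      rw [div_eq_div_iff h2 hq] at h1
      rw [div_mul_eq_mul_div, eq_div_iff hq, h1]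
      ring
    · push_cast
      field_simp

private lemma reduce_int (d c : ℤ) (hd : Squarefree d) (w : ℚ) (h : (d : ℚ) * w ^ 2 = c) :
    ∃ w' : ℤ, (w' : ℚ) = w := by
  have hden : ((w.den : ℤ)) * (w.den : ℤ) ∣ d := by
    have h1 : (d : ℚ) * (w.num : ℚ) ^ 2 = c * (w.den : ℚ) ^ 2 := by
      have h2 : (w.den : ℚ) ≠ 0 := by exact_mod_cast w.den_ne_zero
      have h3 : (w.num : ℚ) = w * w.den := by
        rw [Rat.mul_den_eq_num]
      rw [h3, mul_pow, ← mul_assoc, h]
    have h4 : d * w.num ^ 2 = c * (w.den : ℤ) ^ 2 := by exact_mod_cast h1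
    have h5 : ((w.den : ℤ)) ^ 2 ∣ d * w.num ^ 2 := ⟨c, by rw [h4]; ring⟩
    have h6 : IsCoprime ((w.den : ℤ) ^ 2) (w.num ^ 2) := by
      apply IsCoprime.pow
      rw [isCoprime_comm, Int.isCoprime_iff_gcd_eq_one]
      exact w.reduced
    have h7 := h6.dvd_of_dvd_mul_right h5
    rwa [sq] at h7
  have hu : IsUnit (w.den : ℤ) := hd _ hden
  have h1 : w.den = 1 := by
    have := Int.isUnit_iff_natAbs_eq.mp hu
    simpa using this
  refine ⟨w.num, ?_⟩
  have := Rat.num_div_den w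
  rw [h1] at this
  simpa using this

private lemma reduce_prim {σ : Type} [Fintype σ] (ζ : σ → ℚ) (hζ : ζ ≠ 0) :
    ∃ (μ : ℚ) (ζ' : σ → ℤ), (∀ s, (ζ' s : ℚ) = μ * ζ s) ∧
      ∀ r : ℕ, r.Prime → ∃ s, ¬ (r : ℤ) ∣ ζ' s := by
  classical
  obtain ⟨s0, hs0⟩ : ∃ s, ζ s ≠ 0 := by
    by_contra hcon
    push Not at hcon
    exact hζ (funext hcon)
  -- common denominator
  let N : ℕ := ∏ s, (ζ s).den
  have hN : N ≠ 0 := Finset.prod_ne_zero_iff.mpr fun s _ => (ζ s).den_ne_zero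
  have hZ : ∀ s, ∃ z : ℤ, (z : ℚ) = N * ζ s := by
    intro s
    have hd : (ζ s).den ∣ N := Finset.dvd_prod_of_mem (fun s => (ζ s).den) (Finset.mem_univ s)
    obtain ⟨c, hc⟩ := hd
    refine ⟨c * (ζ s).num, ?_⟩
    rw [hc]
    push_cast
    have := Rat.mul_den_eq_num (ζ s)
    rw [← this]
    ring
  choose Z hZ using hZ
  have hne : (Finset.univ : Finset σ).Nonempty := ⟨s0, Finset.mem_univ _⟩
  obtain ⟨g, hg, hg1⟩ := Finset.extract_gcd Z hne
  have hgcd : (Finset.univ.gcd Z : ℤ) ≠ 0 := by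
    intro h0
    rw [Finset.gcd_eq_zero_iff] at h0
    have h1 := h0 s0 (Finset.mem_univ _)
    have h2 := hZ s0
    rw [h1] at h2
    push_cast at h2
    have h3 : (N : ℚ) * ζ s0 ≠ 0 := mul_ne_zero (by exact_mod_cast hN) hs0
    exact h3 h2.symm
  refine ⟨N / (Finset.univ.gcd Z : ℤ), g, ?_, ?_⟩
  · intro s
    have h1 := hg s (Finset.mem_univ _)
    have h2 := hZ s
    rw [h1] at h2
    push_cast at h2
    have h3 : ((Finset.univ.gcd Z : ℤ) : ℚ) ≠ 0 := by exact_mod_cast hgcd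
    rw [div_mul_eq_mul_div, eq_div_iff h3, ← h2]
    ring
  · intro r hr
    by_contra hcon
    push Not at hcon
    have h1 : (r : ℤ) ∣ Finset.univ.gcd g := Finset.dvd_gcd fun s _ => hcon s
    rw [hg1] at h1
    have h2 : IsUnit (r : ℤ) := isUnit_of_dvd_one h1
    have h3 := Int.isUnit_iff_natAbs_eq.mp h2
    simp only [Int.natAbs_natCast] at h3
    exact hr.one_lt.ne' h3

/-- A rational point of `Y` over a rational point of the product of the twists has integral
coordinates which are primitive. -/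
theorem exists_integral {n : ℕ} {σ : Type} [Fintype σ] (a : Fin n → Fin 3 → ℤ) (k : σ → Fin n → ℕ)
    (I : Set (MvPolynomial (σ ⊕ (Fin n × Fin 2)) ℤ)) (hI : ∀ G ∈ I, IsMulti k G) (d : ℤ)
    (hd : Squarefree d) (ζ : σ → ℚ) (hζ : ζ ≠ 0) (p q w : Fin n → ℚ) (hpq : ∀ i, p i ≠ 0 ∨ q i ≠ 0)
    (hw : ∀ i, (d : ℚ) * w i ^ 2 = q i * (p i - a i 0 * q i) * (p i - a i 1 * q i) *
      (p i - a i 2 * q i))
    (h : Sol I ζ p q) :
    ∃ (ζ' : σ → ℤ) (p' q' w' : Fin n → ℤ), Sol I ζ' p' q' ∧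
      (∀ i, IsCoprime (p' i) (q' i) ∧ d * w' i ^ 2 = quartic (a i) (p' i) (q' i)) ∧
      ∀ r : ℕ, r.Prime → ∃ s, ¬ (r : ℤ) ∣ ζ' s := by
  classical
  choose lam p' q' hlam hcop hp' hq' using fun i => reduce_coprime (p i) (q i) (hpq i)
  have hw' : ∀ i, ∃ w' : ℤ, (w' : ℚ) = lam i ^ 2 * w i := by
    intro i
    refine reduce_int d (quartic (a i) (p' i) (q' i)) hd _ ?_
    unfold quartic
    push_cast
    rw [hp' i, hq' i]
    have := hw i
    calc (d : ℚ) * (lam i ^ 2 * w i) ^ 2 = lam i ^ 4 * (d * w i ^ 2) := by ring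
      _ = _ := by rw [this]; ring
  choose w' hw' using hw'
  have hζ1 : (fun s => (∏ i, lam i ^ k s i) * ζ s) ≠ 0 := by
    intro h0
    apply hζ
    funext s
    have h1 := congrFun h0 s
    simp only [Pi.zero_apply, mul_eq_zero] at h1
    rcases h1 with h1 | h1
    · exfalso
      rw [Finset.prod_eq_zero_iff] at h1
      obtain ⟨i, -, hi⟩ := h1
      exact pow_ne_zero _ (hlam i) hi
    · simpa using h1
  obtain ⟨μ, ζ', hζ', hprim⟩ := reduce_prim _ hζ1
  refine ⟨ζ', p', q', w', ?_, fun i => ⟨hcop i, ?_⟩, hprim⟩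
  · apply reduce_sol_of_map (Int.castRingHom ℚ) Int.cast_injective
    have h1 := sol_scale k I hI ζ p q μ lam h
    have e1 : (fun s => (Int.castRingHom ℚ) (ζ' s)) = fun s => μ * (∏ i, lam i ^ k s i) * ζ s := by
      funext s
      rw [eq_intCast, hζ' s]
      ring
    have e2 : (fun i => (Int.castRingHom ℚ) (p' i)) = fun i => lam i * p i := by
      funext i
      rw [eq_intCast, hp' i]
    have e3 : (fun i => (Int.castRingHom ℚ) (q' i)) = fun i => lam i * q i := by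
      funext i
      rw [eq_intCast, hq' i]
    rw [e1, e2, e3]
    exact h1
  · have h1 : ((d * w' i ^ 2 : ℤ) : ℚ) = ((quartic (a i) (p' i) (q' i) : ℤ) : ℚ) := by
      unfold quartic
      push_cast
      rw [hp' i, hq' i, hw' i]
      have := hw i
      calc (d : ℚ) * (lam i ^ 2 * w i) ^ 2 = lam i ^ 4 * (d * w i ^ 2) := by ring
        _ = _ := by rw [this]; ring
    exact_mod_cast h1

/-- If the point reduces modulo `r` to the branch point `ε`, the fibre over `ε` has a point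
modulo `r`. -/
theorem not_noPoint {n : ℕ} {σ : Type} [Fintype σ] (a : Fin n → Fin 3 → ℤ) (k : σ → Fin n → ℕ)
    (I : Set (MvPolynomial (σ ⊕ (Fin n × Fin 2)) ℤ)) (hI : ∀ G ∈ I, IsMulti k G)
    (ζ : σ → ℤ) (p q : Fin n → ℤ) (h : Sol I ζ p q) (hpq : ∀ i, IsCoprime (p i) (q i))
    (r : ℕ) (hr : r.Prime) (hζ : ∃ s, ¬ (r : ℤ) ∣ ζ s) (ε : Fin n → Option (Fin 3))
    (hε : ∀ i, (r : ℤ) ∣ lin (a i) (ε i) (p i) (q i)) : ¬ NoPoint a I ε r := by
  classical
  have : Fact r.Prime := ⟨hr⟩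
  intro hno
  have hl : ∀ i, ∃ l : ZMod r, l ≠ 0 ∧ ((p i : ℤ) : ZMod r) = l * ((rep (a i) (ε i)).1 : ZMod r) ∧
      ((q i : ℤ) : ZMod r) = l * ((rep (a i) (ε i)).2 : ZMod r) := by
    intro i
    have h1 := hε i
    have hnot : ¬ ((r : ℤ) ∣ p i ∧ (r : ℤ) ∣ q i) := by
      rintro ⟨h2, h3⟩
      have h4 := (hpq i).isUnit_of_dvd' h2 h3
      have h5 := Int.isUnit_iff_natAbs_eq.mp h4
      simp only [Int.natAbs_natCast] at h5
      exact hr.one_lt.ne' h5
    rcases hεi : ε i with _ | j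
    · rw [hεi] at h1
      simp only [lin] at h1
      refine ⟨(p i : ZMod r), ?_, ?_, ?_⟩
      · rw [Ne, ZMod.intCast_zmod_eq_zero_iff_dvd]
        exact fun h2 => hnot ⟨h2, h1⟩
      · simp [rep]
      · simp only [rep]
        push_cast
        rw [mul_zero, ZMod.intCast_zmod_eq_zero_iff_dvd]
        exact h1
    · rw [hεi] at h1
      simp only [lin] at h1
      refine ⟨(q i : ZMod r), ?_, ?_, ?_⟩
      · rw [Ne, ZMod.intCast_zmod_eq_zero_iff_dvd]
        intro h2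
        refine hnot ⟨?_, h2⟩
        have h3 : (r : ℤ) ∣ (p i - a i j * q i) + a i j * q i :=
          dvd_add h1 (Dvd.dvd.mul_left h2 _)
        simpa using h3
      · have h3 := (ZMod.intCast_zmod_eq_zero_iff_dvd _ _).mpr h1
        push_cast at h3
        simp only [rep]
        have h4 : (p i : ZMod r) = (a i j : ZMod r) * (q i : ZMod r) := sub_eq_zero.mp h3
        rw [h4, mul_comm]
      · simp [rep]
  choose l hl0 hlp hlq using hl
  have h1 := reduce_sol_map (Int.castRingHom (ZMod r)) I ζ p q h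
  have h2 := sol_scale k I hI _ _ _ 1 (fun i => (l i)⁻¹) h1
  have e2 : (fun i => (l i)⁻¹ * (Int.castRingHom (ZMod r)) (p i))
      = fun i => ((rep (a i) (ε i)).1 : ZMod r) := by
    funext i
    rw [eq_intCast, hlp i, inv_mul_cancel_left₀ (hl0 i)]
  have e3 : (fun i => (l i)⁻¹ * (Int.castRingHom (ZMod r)) (q i))
      = fun i => ((rep (a i) (ε i)).2 : ZMod r) := by
    funext i
    rw [eq_intCast, hlq i, inv_mul_cancel_left₀ (hl0 i)]
  rw [e2, e3] at h2
  have h3 := hno _ h2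
  obtain ⟨s, hs⟩ := hζ
  have h4 := congrFun h3 s
  simp only [Pi.zero_apply, one_mul, mul_eq_zero] at h4
  rcases h4 with h4 | h4
  · rw [Finset.prod_eq_zero_iff] at h4
    obtain ⟨i, -, hi⟩ := h4
    exact pow_ne_zero _ (inv_ne_zero (hl0 i)) hi
  · rw [eq_intCast, ZMod.intCast_zmod_eq_zero_iff_dvd] at h4
    exact hs h4

end Pool.Agent.Helper11.TW
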