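import Pool.Agent.Helper11.TW.Defs2

/-!
# Reduction modulo a prime of a rational point (second version, with the coordinate `w`)

Same proofs as in `Pool.Agent.Helper11.TW.Reduce`; new: the third coordinate `w i` of weight `2`, and the
twist by `d = d' s²` with `d'` squarefree.  `exists_integral2`: choose `lam i` with `lam i * p i`,
`lam i * q i` coprime integers, then `lam i ^ 2 * w i = d' * s * w' i` with
`d' * w' i ^ 2 = quartic ∈ ℤ`, and `w'` is an integer as `d'` is squarefree.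
-/

namespace Pool.Agent.Helper11.TW

/-- Multihomogeneity: scaling of the coordinates. -/
theorem sol2_scale {n : ℕ} {σ : Type} [Fintype σ] {R : Type*} [CommRing R] (k : σ → Fin n → ℕ)
    (I : Set (MvPolynomial (σ ⊕ (Fin n × Fin 3)) ℤ)) (hI : ∀ G ∈ I, IsMulti2 k G)
    (ζ : σ → R) (x : Fin n × Fin 3 → R) (μ : R) (lam : Fin n → R) (h : Sol2 I ζ x) :
    Sol2 I (fun s => μ * (∏ i, lam i ^ k s i) * ζ s)
      (fun j => ![lam j.1, lam j.1, lam j.1 ^ 2] j.2 * x j) := by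
  intro G hG
  obtain ⟨D, δ, hm⟩ := hI G hG
  have h0 := h G hG
  rw [MvPolynomial.aeval_def, MvPolynomial.eval₂_eq'] at h0 ⊢
  have key : ∀ m ∈ G.support,
      (algebraMap ℤ R) (MvPolynomial.coeff m G) *
        ∏ v, (Sum.elim (fun s => μ * (∏ i, lam i ^ k s i) * ζ s)
          (fun j : Fin n × Fin 3 => ![lam j.1, lam j.1, lam j.1 ^ 2] j.2 * x j)) v ^ m v
      = (μ ^ D * ∏ i, lam i ^ δ i) * ((algebraMap ℤ R) (MvPolynomial.coeff m G) *
        ∏ v, (Sum.elim ζ x) v ^ m v) := by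
    intro m hmm
    obtain ⟨hD, hδ⟩ := hm m hmm
    simp only [Fintype.prod_sum_type, Sum.elim_inl, Sum.elim_inr, Fintype.prod_prod_type,
      Fin.prod_univ_three, Matrix.cons_val_zero, Matrix.cons_val_one, Matrix.cons_val]
    have e1 : ∏ s, (μ * (∏ i, lam i ^ k s i) * ζ s) ^ m (Sum.inl s)
        = μ ^ D * (∏ i, lam i ^ (∑ s, m (Sum.inl s) * k s i)) * ∏ s, ζ s ^ m (Sum.inl s) := by
      simp only [mul_pow, Finset.prod_mul_distrib]
      rw [Finset.prod_pow_eq_pow_sum, hD]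
      congr 2
      simp only [← Finset.prod_pow, ← pow_mul]
      rw [Finset.prod_comm]
      refine Finset.prod_congr rfl fun i _ => ?_
      rw [Finset.prod_pow_eq_pow_sum]
      congr 1
      exact Finset.sum_congr rfl fun s _ => mul_comm _ _
    have e2 : ∏ i, ((lam i * x (i, 0)) ^ m (Sum.inr (i, 0)) *
          (lam i * x (i, 1)) ^ m (Sum.inr (i, 1)) * (lam i ^ 2 * x (i, 2)) ^ m (Sum.inr (i, 2)))
        = (∏ i, lam i ^ (m (Sum.inr (i, 0)) + m (Sum.inr (i, 1)) + 2 * m (Sum.inr (i, 2)))) *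
          ∏ i, (x (i, 0) ^ m (Sum.inr (i, 0)) * x (i, 1) ^ m (Sum.inr (i, 1)) *
            x (i, 2) ^ m (Sum.inr (i, 2))) := by
      rw [← Finset.prod_mul_distrib]
      refine Finset.prod_congr rfl fun i _ => ?_
      rw [mul_pow, mul_pow, mul_pow, pow_add, pow_add, pow_mul]
      ring
    have e3 : (∏ i, lam i ^ δ i) = (∏ i, lam i ^ (∑ s, m (Sum.inl s) * k s i)) *
        ∏ i, lam i ^ (m (Sum.inr (i, 0)) + m (Sum.inr (i, 1)) + 2 * m (Sum.inr (i, 2))) := by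
      rw [← Finset.prod_mul_distrib]
      refine Finset.prod_congr rfl fun i _ => ?_
      rw [← hδ i, ← pow_add, add_assoc, add_assoc, add_assoc]
    rw [e1, e2, e3]
    ring
  rw [Finset.sum_congr rfl key, ← Finset.mul_sum, h0, mul_zero]

private lemma reduce2_map {n : ℕ} {σ : Type} {R S : Type*} [CommRing R] [CommRing S]
    (f : R →+* S) (G : MvPolynomial (σ ⊕ (Fin n × Fin 3)) ℤ) (ζ : σ → R) (x : Fin n × Fin 3 → R) :
    MvPolynomial.aeval (Sum.elim (fun s => f (ζ s)) (fun j : Fin n × Fin 3 => f (x j))) G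
      = f (MvPolynomial.aeval (Sum.elim ζ x) G) := by
  have h := MvPolynomial.comp_aeval_apply (Sum.elim ζ x) f.toIntAlgHom G
  have h2 : f (MvPolynomial.aeval (Sum.elim ζ x) G)
      = f.toIntAlgHom (MvPolynomial.aeval (Sum.elim ζ x) G) := rfl
  rw [h2, h]
  congr 2
  funext v
  rcases v with s | j <;> rfl

private lemma reduce2_sol_map {n : ℕ} {σ : Type} {R S : Type*} [CommRing R] [CommRing S]
    (f : R →+* S) (I : Set (MvPolynomial (σ ⊕ (Fin n × Fin 3)) ℤ)) (ζ : σ → R)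
    (x : Fin n × Fin 3 → R) (h : Sol2 I ζ x) :
    Sol2 I (fun s => f (ζ s)) (fun j => f (x j)) := by
  intro G hG
  have := reduce2_map f G ζ x
  rw [h G hG, map_zero] at this
  exact this

private lemma reduce2_sol_of_map {n : ℕ} {σ : Type} {R S : Type*} [CommRing R] [CommRing S]
    (f : R →+* S) (hf : Function.Injective f) (I : Set (MvPolynomial (σ ⊕ (Fin n × Fin 3)) ℤ))
    (ζ : σ → R) (x : Fin n × Fin 3 → R)
    (h : Sol2 I (fun s => f (ζ s)) (fun j => f (x j))) : Sol2 I ζ x := by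
  intro G hG
  have h1 := reduce2_map f G ζ x
  have h2 := h G hG
  apply hf
  rw [map_zero, ← h1]
  exact h2

private lemma reduce2_coprime (p q : ℚ) (h : p ≠ 0 ∨ q ≠ 0) :
    ∃ (lam : ℚ) (p' q' : ℤ), lam ≠ 0 ∧ IsCoprime p' q' ∧ (p' : ℚ) = lam * p ∧ (q' : ℚ) = lam * q := by
  by_cases hq : q = 0
  · have hp : p ≠ 0 := by
      rcases h with h | h
      · exact h
      · exact absurd hq h
    refine ⟨p⁻¹, 1, 0, inv_ne_zero hp, isCoprime_one_left, ?_, ?_⟩
    · rw [inv_mul_cancel₀ hp]; norm_num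
    · rw [hq]; norm_num
  · refine ⟨(p / q).den / q, (p / q).num, (p / q).den, ?_, ?_, ?_, ?_⟩
    · exact div_ne_zero (by exact_mod_cast (p / q).den_ne_zero) hq
    · have := (p / q).reduced
      rw [Int.isCoprime_iff_gcd_eq_one]
      exact this
    · have h1 : ((p / q).num : ℚ) / ((p / q).den : ℚ) = p / q := Rat.num_div_den _
      have h2 : ((p / q).den : ℚ) ≠ 0 := by exact_mod_cast (p / q).den_ne_zero
      rw [div_eq_div_iff h2 hq] at h1
      rw [div_mul_eq_mul_div, eq_div_iff hq, h1]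
      ring
    · push_cast
      field_simp

private lemma reduce2_int (d c : ℤ) (hd : Squarefree d) (w : ℚ) (h : (d : ℚ) * w ^ 2 = c) :
    ∃ w' : ℤ, (w' : ℚ) = w := by
  have hden : ((w.den : ℤ)) * (w.den : ℤ) ∣ d := by
    have h1 : (d : ℚ) * (w.num : ℚ) ^ 2 = c * (w.den : ℚ) ^ 2 := by
      have h3 : (w.num : ℚ) = w * w.den := by
        rw [Rat.mul_den_eq_num]
      rw [h3, mul_pow, ← mul_assoc, h]
    have h4 : d * w.num ^ 2 = c * (w.den : ℤ) ^ 2 := by exact_mod_cast h1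
    have h5 : ((w.den : ℤ)) ^ 2 ∣ d * w.num ^ 2 := ⟨c, by rw [h4]; ring⟩
    have h6 : IsCoprime ((w.den : ℤ) ^ 2) (w.num ^ 2) := by
      apply IsCoprime.pow
      rw [isCoprime_comm, Int.isCoprime_iff_gcd_eq_one]
      exact w.reduced
    have h7 := h6.dvd_of_dvd_mul_right h5
    rwa [sq] at h7
  have hu : IsUnit (w.den : ℤ) := hd _ hden
  have h1 : w.den = 1 := by
    have := Int.isUnit_iff_natAbs_eq.mp hu
    simpa using this
  refine ⟨w.num, ?_⟩
  have := Rat.num_div_den w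
  rw [h1] at this
  simpa using this

private lemma reduce2_prim {σ : Type} [Fintype σ] (ζ : σ → ℚ) (hζ : ζ ≠ 0) :
    ∃ (μ : ℚ) (ζ' : σ → ℤ), (∀ s, (ζ' s : ℚ) = μ * ζ s) ∧
      ∀ r : ℕ, r.Prime → ∃ s, ¬ (r : ℤ) ∣ ζ' s := by
  classical
  obtain ⟨s0, hs0⟩ : ∃ s, ζ s ≠ 0 := by
    by_contra hcon
    push Not at hcon
    exact hζ (funext hcon)
  let N : ℕ := ∏ s, (ζ s).den
  have hN : N ≠ 0 := Finset.prod_ne_zero_iff.mpr fun s _ => (ζ s).den_ne_zero
  have hZ : ∀ s, ∃ z : ℤ, (z : ℚ) = N * ζ s := by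
    intro s
    have hd : (ζ s).den ∣ N := Finset.dvd_prod_of_mem (fun s => (ζ s).den) (Finset.mem_univ s)
    obtain ⟨c, hc⟩ := hd
    refine ⟨c * (ζ s).num, ?_⟩
    rw [hc]
    push_cast
    have := Rat.mul_den_eq_num (ζ s)
    rw [← this]
    ring
  choose Z hZ using hZ
  have hne : (Finset.univ : Finset σ).Nonempty := ⟨s0, Finset.mem_univ _⟩
  obtain ⟨g, hg, hg1⟩ := Finset.extract_gcd Z hne
  have hgcd : (Finset.univ.gcd Z : ℤ) ≠ 0 := by
    intro h0
    rw [Finset.gcd_eq_zero_iff] at h0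
    have h1 := h0 s0 (Finset.mem_univ _)
    have h2 := hZ s0
    rw [h1] at h2
    push_cast at h2
    have h3 : (N : ℚ) * ζ s0 ≠ 0 := mul_ne_zero (by exact_mod_cast hN) hs0
    exact h3 h2.symm
  refine ⟨N / (Finset.univ.gcd Z : ℤ), g, ?_, ?_⟩
  · intro s
    have h1 := hg s (Finset.mem_univ _)
    have h2 := hZ s
    rw [h1] at h2
    push_cast at h2
    have h3 : ((Finset.univ.gcd Z : ℤ) : ℚ) ≠ 0 := by exact_mod_cast hgcd
    rw [div_mul_eq_mul_div, eq_div_iff h3, ← h2]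
    ring
  · intro r hr
    by_contra hcon
    push Not at hcon
    have h1 : (r : ℤ) ∣ Finset.univ.gcd g := Finset.dvd_gcd fun s _ => hcon s
    rw [hg1] at h1
    have h2 : IsUnit (r : ℤ) := isUnit_of_dvd_one h1
    have h3 := Int.isUnit_iff_natAbs_eq.mp h2
    simp only [Int.natAbs_natCast] at h3
    exact hr.one_lt.ne' h3

/-- A rational point over a rational point of the product of the twists by `d = d' s²` has
integral primitive coordinates. -/
theorem exists_integral2 {n : ℕ} {σ : Type} [Fintype σ] (a : Fin n → Fin 3 → ℤ)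
    (k : σ → Fin n → ℕ) (I : Set (MvPolynomial (σ ⊕ (Fin n × Fin 3)) ℤ))
    (hI : ∀ G ∈ I, IsMulti2 k G) (d' s : ℤ) (hd' : Squarefree d') (hs : s ≠ 0)
    (ζ : σ → ℚ) (hζ : ζ ≠ 0) (x : Fin n × Fin 3 → ℚ) (hpq : ∀ i, x (i, 0) ≠ 0 ∨ x (i, 1) ≠ 0)
    (hw : ∀ i, x (i, 2) ^ 2 = (d' * s ^ 2 : ℤ) * (x (i, 1) * (x (i, 0) - a i 0 * x (i, 1)) *
      (x (i, 0) - a i 1 * x (i, 1)) * (x (i, 0) - a i 2 * x (i, 1))))
    (h : Sol2 I ζ x) :
    ∃ (ζ' : σ → ℤ) (p' q' w' : Fin n → ℤ),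
      Sol2 I ζ' (fun j => ![p' j.1, q' j.1, d' * s * w' j.1] j.2) ∧
      (∀ i, IsCoprime (p' i) (q' i) ∧ d' * w' i ^ 2 = quartic (a i) (p' i) (q' i)) ∧
      ∀ r : ℕ, r.Prime → ∃ s, ¬ (r : ℤ) ∣ ζ' s := by
  classical
  have hd0 : (d' : ℚ) ≠ 0 := by exact_mod_cast hd'.ne_zero
  have hs0 : (s : ℚ) ≠ 0 := by exact_mod_cast hs
  choose lam p' q' hlam hcop hp' hq' using
    fun i => reduce2_coprime (x (i, 0)) (x (i, 1)) (hpq i)
  have hquart : ∀ i, ((quartic (a i) (p' i) (q' i) : ℤ) : ℚ)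
      = d' * (lam i ^ 2 * x (i, 2) / (d' * s)) ^ 2 := by
    intro i
    have h1 := hw i
    have h2 : (d' : ℚ) * (lam i ^ 2 * x (i, 2) / (d' * s)) ^ 2
        = lam i ^ 4 * x (i, 2) ^ 2 / (d' * s ^ 2) := by
      field_simp
    rw [h2, h1, eq_div_iff (mul_ne_zero hd0 (pow_ne_zero 2 hs0))]
    unfold quartic
    push_cast
    rw [hp' i, hq' i]
    ring
  have hw' : ∀ i, ∃ w' : ℤ, (w' : ℚ) = lam i ^ 2 * x (i, 2) / (d' * s) := fun i =>
    reduce2_int d' (quartic (a i) (p' i) (q' i)) hd' _ (hquart i).symm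
  choose w' hw' using hw'
  have hζ1 : (fun s => (∏ i, lam i ^ k s i) * ζ s) ≠ 0 := by
    intro h0
    apply hζ
    funext t
    have h1 := congrFun h0 t
    simp only [Pi.zero_apply, mul_eq_zero] at h1
    rcases h1 with h1 | h1
    · exfalso
      rw [Finset.prod_eq_zero_iff] at h1
      obtain ⟨i, -, hi⟩ := h1
      exact pow_ne_zero _ (hlam i) hi
    · simpa using h1
  obtain ⟨μ, ζ', hζ', hprim⟩ := reduce2_prim _ hζ1
  refine ⟨ζ', p', q', w', ?_, fun i => ⟨hcop i, ?_⟩, hprim⟩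
  · apply reduce2_sol_of_map (Int.castRingHom ℚ) Int.cast_injective
    have h1 := sol2_scale k I hI ζ x μ lam h
    have e1 : (fun t => (Int.castRingHom ℚ) (ζ' t)) = fun t => μ * (∏ i, lam i ^ k t i) * ζ t := by
      funext t
      rw [eq_intCast, hζ' t]
      ring
    have e2 : (fun j : Fin n × Fin 3 => (Int.castRingHom ℚ) (![p' j.1, q' j.1, d' * s * w' j.1] j.2))
        = fun j => ![lam j.1, lam j.1, lam j.1 ^ 2] j.2 * x j := by
      funext j
      obtain ⟨i, j⟩ := j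
      fin_cases j
      · simpa using hp' i
      · simpa using hq' i
      · simp only [Fin.reduceFinMk, Matrix.cons_val, eq_intCast]
        push_cast
        rw [hw' i]
        field_simp
    rw [e1, e2]
    exact h1
  · have h1 : ((d' * w' i ^ 2 : ℤ) : ℚ) = ((quartic (a i) (p' i) (q' i) : ℤ) : ℚ) := by
      rw [hquart i]
      push_cast
      rw [hw' i]
    exact_mod_cast h1

/-- If the point reduces modulo `r` to the branch point `ε`, the fibre over `ε` has a point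
modulo `r`. -/
theorem not_noPoint2 {n : ℕ} {σ : Type} [Fintype σ] (a : Fin n → Fin 3 → ℤ) (k : σ → Fin n → ℕ)
    (I : Set (MvPolynomial (σ ⊕ (Fin n × Fin 3)) ℤ)) (hI : ∀ G ∈ I, IsMulti2 k G)
    (ζ : σ → ℤ) (x : Fin n × Fin 3 → ℤ) (h : Sol2 I ζ x)
    (hpq : ∀ i, IsCoprime (x (i, 0)) (x (i, 1))) (r : ℕ) (hr : r.Prime)
    (hrw : ∀ i, (r : ℤ) ∣ x (i, 2)) (hζ : ∃ s, ¬ (r : ℤ) ∣ ζ s) (ε : Fin n → Option (Fin 3))
    (hε : ∀ i, (r : ℤ) ∣ lin (a i) (ε i) (x (i, 0)) (x (i, 1))) : ¬ NoPoint2 a I ε r := by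
  classical
  have : Fact r.Prime := ⟨hr⟩
  intro hno
  have hl : ∀ i, ∃ l : ZMod r, l ≠ 0 ∧
      ((x (i, 0) : ℤ) : ZMod r) = l * ((rep3 (a i) (ε i) 0 : ℤ) : ZMod r) ∧
      ((x (i, 1) : ℤ) : ZMod r) = l * ((rep3 (a i) (ε i) 1 : ℤ) : ZMod r) := by
    intro i
    have h1 := hε i
    have hnot : ¬ ((r : ℤ) ∣ x (i, 0) ∧ (r : ℤ) ∣ x (i, 1)) := by
      rintro ⟨h2, h3⟩
      have h4 := (hpq i).isUnit_of_dvd' h2 h3
      have h5 := Int.isUnit_iff_natAbs_eq.mp h4
      simp only [Int.natAbs_natCast] at h5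
      exact hr.one_lt.ne' h5
    rcases hεi : ε i with _ | j
    · rw [hεi] at h1
      simp only [lin] at h1
      refine ⟨(x (i, 0) : ZMod r), ?_, ?_, ?_⟩
      · rw [Ne, ZMod.intCast_zmod_eq_zero_iff_dvd]
        exact fun h2 => hnot ⟨h2, h1⟩
      · simp [rep3]
      · simp only [rep3, Matrix.cons_val_one, Matrix.cons_val_zero]
        push_cast
        rw [mul_zero, ZMod.intCast_zmod_eq_zero_iff_dvd]
        exact h1
    · rw [hεi] at h1
      simp only [lin] at h1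
      refine ⟨(x (i, 1) : ZMod r), ?_, ?_, ?_⟩
      · rw [Ne, ZMod.intCast_zmod_eq_zero_iff_dvd]
        intro h2
        refine hnot ⟨?_, h2⟩
        have h3 : (r : ℤ) ∣ (x (i, 0) - a i j * x (i, 1)) + a i j * x (i, 1) :=
          dvd_add h1 (Dvd.dvd.mul_left h2 _)
        simpa using h3
      · have h3 := (ZMod.intCast_zmod_eq_zero_iff_dvd _ _).mpr h1
        push_cast at h3
        simp only [rep3, Matrix.cons_val_zero]
        have h4 : (x (i, 0) : ZMod r) = (a i j : ZMod r) * (x (i, 1) : ZMod r) :=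
          sub_eq_zero.mp h3
        rw [h4, mul_comm]
      · simp [rep3]
  choose l hl0 hlp hlq using hl
  have h1 := reduce2_sol_map (Int.castRingHom (ZMod r)) I ζ x h
  have h2 := sol2_scale k I hI _ _ 1 (fun i => (l i)⁻¹) h1
  have e2 : (fun j : Fin n × Fin 3 => ![(l j.1)⁻¹, (l j.1)⁻¹, (l j.1)⁻¹ ^ 2] j.2 *
      (Int.castRingHom (ZMod r)) (x j)) = fun j => (rep3 (a j.1) (ε j.1) j.2 : ZMod r) := by
    funext j
    obtain ⟨i, j⟩ := j
    fin_cases j
    · simp only [Fin.zero_eta, Matrix.cons_val_zero, eq_intCast]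
      rw [hlp i, inv_mul_cancel_left₀ (hl0 i)]
    · simp only [Fin.mk_one, Matrix.cons_val_one, Matrix.cons_val_zero, eq_intCast]
      rw [hlq i, inv_mul_cancel_left₀ (hl0 i)]
    · have h3 : ((x (i, 2) : ℤ) : ZMod r) = 0 :=
        (ZMod.intCast_zmod_eq_zero_iff_dvd _ _).mpr (hrw i)
      simp only [Fin.reduceFinMk, Matrix.cons_val, eq_intCast]
      rw [h3, mul_zero]
      rcases ε i with _ | t <;> simp [rep3]
  rw [e2] at h2
  have h3 := hno _ h2
  obtain ⟨s, hs⟩ := hζ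
  have h4 := congrFun h3 s
  simp only [Pi.zero_apply, one_mul, mul_eq_zero] at h4
  rcases h4 with h4 | h4
  · rw [Finset.prod_eq_zero_iff] at h4
    obtain ⟨i, -, hi⟩ := h4
    exact pow_ne_zero _ (inv_ne_zero (hl0 i)) hi
  · rw [eq_intCast, ZMod.intCast_zmod_eq_zero_iff_dvd] at h4
    exact hs h4

end Pool.Agent.Helper11.TW
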