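import Pool.Agent.Helper11.TW.Defs2
import Pool.Agent.Helper36.TW.Fam

/-!
# Reduction modulo a prime of a rational point (third version)

Same proofs as in `Pool.Agent.Helper11.TW.Reduce`; new: the third coordinate `w i` of weight `2`, with
`d * w i ^ 2 = quartic`.  `exists_integral3`: choose `lam i ≠ 0` with `lam i * p i`, `lam i * q i` coprime
integers, then `lam i ^ 2 * w i` is an integer as `d` is squarefree.
-/

namespace Pool.Agent.Helper11.TW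

/-- There is no point modulo `r` over the branch point `ε` (with arbitrary coordinates `w`). -/
def NoPoint3 {n : ℕ} {σ : Type} (a : Fin n → Fin 3 → ℤ)
    (I : Set (MvPolynomial (σ ⊕ (Fin n × Fin 3)) ℤ)) (ε : Fin n → Option (Fin 3)) (r : ℕ) : Prop :=
  ∀ (ζ : σ → ZMod r) (w : Fin n → ZMod r),
    Sol2 I ζ (fun j => ![((rep (a j.1) (ε j.1)).1 : ZMod r), ((rep (a j.1) (ε j.1)).2 : ZMod r),
      w j.1] j.2) → ζ = 0

theorem prod3_scale {n : ℕ} {σ : Type} [Fintype σ] {R : Type*} [CommRing R] (k : σ → Fin n → ℕ)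
    (ζ : σ → R) (x : Fin n × Fin 3 → R) (c : R) (lam : Fin n → R)
    (μ : (σ ⊕ (Fin n × Fin 3)) →₀ ℕ) {D : ℕ} {δ : Fin n → ℕ} (h1 : ∑ s, μ (Sum.inl s) = D)
    (h2 : ∀ i, (∑ s, μ (Sum.inl s) * k s i) + μ (Sum.inr (i, 0)) + μ (Sum.inr (i, 1)) +
      2 * μ (Sum.inr (i, 2)) = δ i) :
    ∏ t, Sum.elim (fun s => c * (∏ i, lam i ^ k s i) * ζ s)
        (fun j : Fin n × Fin 3 => ![lam j.1, lam j.1, lam j.1 ^ 2] j.2 * x j) t ^ μ t =
      c ^ D * (∏ i, lam i ^ δ i) * ∏ t, Sum.elim ζ x t ^ μ t := by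
  have e1 : ∀ (f : (σ ⊕ (Fin n × Fin 3)) → R), ∏ t, f t = (∏ s, f (Sum.inl s)) *
      ∏ i, f (Sum.inr (i, 0)) * f (Sum.inr (i, 1)) * f (Sum.inr (i, 2)) := by
    intro f
    rw [Fintype.prod_sum_type, Fintype.prod_prod_type]
    congr 1
    refine Finset.prod_congr rfl fun i _ => ?_
    rw [Fin.prod_univ_three]
  rw [e1, e1]
  have e0 : ∀ i, (![lam i, lam i, lam i ^ 2] : Fin 3 → R) 2 = lam i ^ 2 := fun _ => rfl
  simp only [Sum.elim_inl, Sum.elim_inr, Matrix.cons_val_zero, Matrix.cons_val_one, e0]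
  simp only [mul_pow, Finset.prod_mul_distrib]
  have e2 : ∏ s, c ^ μ (Sum.inl s) = c ^ D := by
    rw [Finset.prod_pow_eq_pow_sum, h1]
  have e3 : ∏ i, lam i ^ δ i = (∏ s, (∏ i, lam i ^ k s i) ^ μ (Sum.inl s)) *
      (∏ i, lam i ^ μ (Sum.inr (i, 0))) * (∏ i, lam i ^ μ (Sum.inr (i, 1))) *
      (∏ i, (lam i ^ 2) ^ μ (Sum.inr (i, 2))) := by
    have f1 : ∏ s, (∏ i, lam i ^ k s i) ^ μ (Sum.inl s) =
        ∏ i, lam i ^ (∑ s, μ (Sum.inl s) * k s i) := by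
      rw [Finset.prod_congr rfl fun s _ => (Finset.prod_pow _ _ _).symm, Finset.prod_comm]
      refine Finset.prod_congr rfl fun i _ => ?_
      rw [← Finset.prod_pow_eq_pow_sum]
      refine Finset.prod_congr rfl fun s _ => ?_
      rw [← pow_mul, mul_comm]
    have f2 : ∏ i, (lam i ^ 2) ^ μ (Sum.inr (i, 2)) =
        ∏ i, lam i ^ (2 * μ (Sum.inr (i, 2))) := by
      refine Finset.prod_congr rfl fun i _ => ?_
      rw [← pow_mul]
    rw [f1, f2, ← Finset.prod_mul_distrib, ← Finset.prod_mul_distrib,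
      ← Finset.prod_mul_distrib]
    refine Finset.prod_congr rfl fun i _ => ?_
    rw [← pow_add, ← pow_add, ← pow_add, ← h2 i]
  rw [e2, e3]
  ring

theorem sol3_cast {n : ℕ} {σ : Type} (I : Set (MvPolynomial (σ ⊕ (Fin n × Fin 3)) ℤ)) (ζ : σ → ℤ)
    (x : Fin n × Fin 3 → ℤ) (R : Type) [CommRing R] (h : Sol2 I ζ x) :
    Sol2 I (fun s => (ζ s : R)) (fun j => (x j : R)) := by
  intro G hG
  have h1 := congrArg (algebraMap ℤ R) (h G hG)
  rw [← MvPolynomial.aeval_algebraMap_apply, map_zero] at h1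
  rw [← h1]
  congr 2
  funext t
  rcases t with s | j <;> rfl

theorem sol3_of_cast {n : ℕ} {σ : Type} (I : Set (MvPolynomial (σ ⊕ (Fin n × Fin 3)) ℤ))
    (ζ : σ → ℤ) (x : Fin n × Fin 3 → ℤ)
    (h : Sol2 I (fun s => (ζ s : ℚ)) (fun j => (x j : ℚ))) : Sol2 I ζ x := by
  intro G hG
  have h1 := h G hG
  have h2 : (algebraMap ℤ ℚ) (MvPolynomial.aeval (Sum.elim ζ x) G) = 0 := by
    rw [← MvPolynomial.aeval_algebraMap_apply, ← h1]
    congr 2
    funext t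
    rcases t with s | j <;> rfl
  exact (FaithfulSMul.algebraMap_injective ℤ ℚ) (h2.trans (map_zero _).symm)

/-- Multihomogeneity: scaling of the coordinates. -/
theorem sol3_scale {n : ℕ} {σ : Type} [Fintype σ] {R : Type*} [CommRing R] (k : σ → Fin n → ℕ)
    (I : Set (MvPolynomial (σ ⊕ (Fin n × Fin 3)) ℤ)) (hI : ∀ G ∈ I, IsMulti2 k G)
    (ζ : σ → R) (x : Fin n × Fin 3 → R) (μ : R) (lam : Fin n → R) (h : Sol2 I ζ x) :
    Sol2 I (fun s => μ * (∏ i, lam i ^ k s i) * ζ s)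
      (fun j => ![lam j.1, lam j.1, lam j.1 ^ 2] j.2 * x j) := by
  intro G hG
  obtain ⟨D, δ, hδ⟩ := hI G hG
  have h0 := h G hG
  rw [MvPolynomial.aeval_def, MvPolynomial.eval₂_eq'] at h0 ⊢
  have h1 : ∀ m ∈ G.support, (algebraMap ℤ R) (MvPolynomial.coeff m G) *
      ∏ t, Sum.elim (fun s => μ * (∏ i, lam i ^ k s i) * ζ s)
        (fun j : Fin n × Fin 3 => ![lam j.1, lam j.1, lam j.1 ^ 2] j.2 * x j) t ^ m t =
      (μ ^ D * ∏ i, lam i ^ δ i) * ((algebraMap ℤ R) (MvPolynomial.coeff m G) *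
        ∏ t, Sum.elim ζ x t ^ m t) := by
    intro m hm
    rw [prod3_scale k ζ x μ lam m (hδ m hm).1 (hδ m hm).2]
    ring
  rw [Finset.sum_congr rfl h1, ← Finset.mul_sum, h0, mul_zero]

/-- A rational point over a rational point of the product of the twists by `d` has integral
primitive coordinates. -/
theorem exists_integral3 {n : ℕ} {σ : Type} [Fintype σ] (a : Fin n → Fin 3 → ℤ)
    (k : σ → Fin n → ℕ) (I : Set (MvPolynomial (σ ⊕ (Fin n × Fin 3)) ℤ))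
    (hI : ∀ G ∈ I, IsMulti2 k G) (d : ℤ) (hd : Squarefree d)
    (ζ : σ → ℚ) (hζ : ζ ≠ 0) (x : Fin n × Fin 3 → ℚ) (hpq : ∀ i, x (i, 0) ≠ 0 ∨ x (i, 1) ≠ 0)
    (hw : ∀ i, (d : ℚ) * x (i, 2) ^ 2 = x (i, 1) * (x (i, 0) - a i 0 * x (i, 1)) *
      (x (i, 0) - a i 1 * x (i, 1)) * (x (i, 0) - a i 2 * x (i, 1)))
    (h : Sol2 I ζ x) :
    ∃ (ζ' : σ → ℤ) (x' : Fin n × Fin 3 → ℤ), Sol2 I ζ' x' ∧
      (∀ i, IsCoprime (x' (i, 0)) (x' (i, 1)) ∧
        d * x' (i, 2) ^ 2 = quartic (a i) (x' (i, 0)) (x' (i, 1))) ∧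
      ∀ r : ℕ, r.Prime → ∃ s, ¬ (r : ℤ) ∣ ζ' s := by
  choose lam P Q hlam hP hQ hcop using fun i =>
    Pool.Agent.Helper36.TW.exists_coprime (x (i, 0)) (x (i, 1)) (hpq i)
  have hquart : ∀ i, (d : ℚ) * (lam i ^ 2 * x (i, 2)) ^ 2 = (quartic (a i) (P i) (Q i) : ℤ) := by
    intro i
    unfold quartic
    push_cast
    rw [← hP i, ← hQ i]
    have := hw i
    calc (d : ℚ) * (lam i ^ 2 * x (i, 2)) ^ 2 = lam i ^ 4 * ((d : ℚ) * x (i, 2) ^ 2) := by ring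
      _ = _ := by rw [this]; ring
  choose W hW using fun i => Pool.Agent.Helper36.TW.integral_of_sq hd (hquart i)
  have h1 := sol3_scale k I hI ζ x 1 lam h
  have hne : (fun s => (1 : ℚ) * (∏ i, lam i ^ k s i) * ζ s) ≠ 0 := by
    intro h0
    apply hζ
    funext s
    have := congrFun h0 s
    have h3 : (∏ i, lam i ^ k s i) ≠ 0 :=
      Finset.prod_ne_zero_iff.2 fun i _ => pow_ne_zero _ (hlam i)
    simpa [h3] using this
  obtain ⟨c, z, hc, hz, hr⟩ := Pool.Agent.Helper36.TW.exists_primitive _ hne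
  have h2 := sol3_scale k I hI _ _ c (fun _ => 1) h1
  refine ⟨z, fun j => ![P j.1, Q j.1, W j.1] j.2, ?_, fun i => ⟨hcop i, ?_⟩, hr⟩
  · apply sol3_of_cast
    have e1 : (fun s => (z s : ℚ)) =
        fun s => c * (∏ i : Fin n, (1 : ℚ) ^ k s i) * ((1 : ℚ) * (∏ i, lam i ^ k s i) * ζ s) := by
      funext s
      rw [← hz s]
      simp
    have e2 : (fun j : Fin n × Fin 3 => ((![P j.1, Q j.1, W j.1] j.2 : ℤ) : ℚ)) = fun j =>
        ![(1 : ℚ), 1, 1 ^ 2] j.2 * (![lam j.1, lam j.1, lam j.1 ^ 2] j.2 * x j) := by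
      funext j
      obtain ⟨i, b⟩ := j
      fin_cases b
      · simp [← hP i]
      · simp [← hQ i]
      · simp [hW i]
    rw [e1, e2]
    exact h2
  · have h3 := hquart i
    rw [← hW i] at h3
    have h4 : d * W i ^ 2 = quartic (a i) (P i) (Q i) := by exact_mod_cast h3
    simpa using h4

/-- If the point reduces modulo `r` to the branch point `ε`, there is a point modulo `r`
over `ε`. -/
theorem not_noPoint3 {n : ℕ} {σ : Type} [Fintype σ] (a : Fin n → Fin 3 → ℤ) (k : σ → Fin n → ℕ)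
    (I : Set (MvPolynomial (σ ⊕ (Fin n × Fin 3)) ℤ)) (hI : ∀ G ∈ I, IsMulti2 k G)
    (ζ : σ → ℤ) (x : Fin n × Fin 3 → ℤ) (h : Sol2 I ζ x)
    (hpq : ∀ i, IsCoprime (x (i, 0)) (x (i, 1))) (r : ℕ) (hr : r.Prime)
    (hζ : ∃ s, ¬ (r : ℤ) ∣ ζ s) (ε : Fin n → Option (Fin 3))
    (hε : ∀ i, (r : ℤ) ∣ lin (a i) (ε i) (x (i, 0)) (x (i, 1))) : ¬ NoPoint3 a I ε r := by
  have : Fact r.Prime := ⟨hr⟩
  intro hno
  have h1 := sol3_cast I ζ x (ZMod r) h
  choose u hu0 hu1 hu2 using fun i => Pool.Agent.Helper36.TW.exists_unit_scale (a i)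
    (x (i, 0)) (x (i, 1)) (hpq i) r hr (ε i) (hε i)
  have h3 := sol3_scale k I hI _ _ 1 u h1
  have h4 := hno (fun s => 1 * (∏ i, u i ^ k s i) * (ζ s : ZMod r))
    (fun i => u i ^ 2 * (x (i, 2) : ZMod r)) (by
      intro G hG
      rw [← h3 G hG]
      congr 2
      funext t
      rcases t with s | ⟨i, j⟩
      · rfl
      · fin_cases j
        · exact (hu1 i).symm
        · exact (hu2 i).symm
        · rfl)
  obtain ⟨s, hs⟩ := hζ
  have h5 := congrFun h4 s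
  have h6 : (∏ i, u i ^ k s i) ≠ 0 := Finset.prod_ne_zero_iff.2 fun i _ => pow_ne_zero _ (hu0 i)
  have h7 : (ζ s : ZMod r) ≠ 0 := fun h => hs ((ZMod.intCast_zmod_eq_zero_iff_dvd _ r).1 h)
  simp [h6, h7] at h5

end Pool.Agent.Helper11.TW
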