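import Pool.Agent.Helper11.TW.Count
import Pool.Agent.Helper11.TW.Reduce
import Pool.Agent.Helper11.TW.Geo

/-!
# Almost all quadratic twists of a symmetric variety have no rational point

Let `Eᵢ : y² = (x - a i 0) (x - a i 1) (x - a i 2)`, `1 ≤ i ≤ n`, be elliptic curves over `ℚ` with full
rational two-torsion (of arbitrary rank, with or without complex multiplication), and let `Y` be a
closed subscheme of a projective bundle `ℙ(O(k₀) ⊕ … ⊕ O(kₛ))` over `(ℙ¹)ⁿ`.  The variety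
`X = Y ×_{(ℙ¹)ⁿ} ∏ Eᵢ` (for example `z² = F(x₁, …, xₙ)`) has the quadratic twists
`X_d = Y ×_{(ℙ¹)ⁿ} ∏ Eᵢᵈ`, where `Eᵢᵈ : d y² = (x - a i 0) (x - a i 1) (x - a i 2)`.  Let `e` be one of
the `4 ^ n` points of `(ℙ¹)ⁿ` whose coordinates are `a i 0`, `a i 1`, `a i 2` or `∞`.  If for each `e` the
fibre of `Y` over `e` has no point modulo `r` for all large primes `r` in some residue class, then `X_d`
has no rational point for all squarefree `d`, `|d| ≤ N`, with `O(N (log N) ^ (-δ))` exceptions.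
-/

open AlgebraicGeometry CategoryTheory

namespace Pool.Agent.Results.MP_2ae8fe_ag.QuadraticTwists

/-- `P` is a rational point of the elliptic curve `d y² = (x - a 0) (x - a 1) (x - a 2)`: `none` is the
origin (the point at infinity), `some (x, y)` is an affine point. -/
def OnTwist (a : Fin 3 → ℤ) (d : ℤ) : Option (ℚ × ℚ) → Prop
  | none => True
  | some (x, y) => (d : ℚ) * y ^ 2 = (x - a 0) * (x - a 1) * (x - a 2)

/-- Homogeneous coordinates `(p : q)` of the image of a point under `x : Eᵈ → ℙ¹`. -/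
def coord : Option (ℚ × ℚ) → Fin 2 → ℚ
  | none => ![1, 0]
  | some (x, _) => ![x, 1]

/-- Homogeneous coordinates `(p : q)` of a branch point of `x : E → ℙ¹`: `none` is `∞`, and `some j` is
`a j`. -/
def branch (a : Fin 3 → ℤ) : Option (Fin 3) → Fin 2 → ℤ
  | none => ![1, 0]
  | some j => ![a j, 1]

/-- `G` is a multihomogeneous polynomial in the variables `ζ s` (`s ∈ σ`) and
`(p i, q i) = (X (i, 0), X (i, 1))`, that is, an equation in the projective bundle
`ℙ(⨁ s, O(k s 1, …, k s n))` over `(ℙ¹)ⁿ`: homogeneous of some degree `D` in `ζ`, and for each `i`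
homogeneous of some degree `δ i` if `ζ s` has degree `k s i` and `p i`, `q i` have degree `1`. -/
def IsMultihomogeneous {n : ℕ} {σ : Type} [Fintype σ] (k : σ → Fin n → ℕ)
    (G : MvPolynomial (σ ⊕ (Fin n × Fin 2)) ℤ) : Prop :=
  ∃ (D : ℕ) (δ : Fin n → ℕ), ∀ μ ∈ G.support, (∑ s, μ (Sum.inl s) = D) ∧
    ∀ i, (∑ s, μ (Sum.inl s) * k s i) + μ (Sum.inr (i, 0)) + μ (Sum.inr (i, 1)) = δ i

/-- The point with coordinates `ζ s` and `(p i, q i) = (x (i, 0), x (i, 1))` satisfies all
equations in `I`. -/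
def Satisfies {n : ℕ} {σ : Type} {R : Type*} [CommRing R]
    (I : Set (MvPolynomial (σ ⊕ (Fin n × Fin 2)) ℤ)) (ζ : σ → R) (x : Fin n × Fin 2 → R) : Prop :=
  ∀ G ∈ I, MvPolynomial.aeval (Sum.elim ζ x) G = 0

/-- The fibre of `Y` over the branch point `e` has no point over the field with `r` elements. -/
def EmptyFibre {n : ℕ} {σ : Type} (a : Fin n → Fin 3 → ℤ)
    (I : Set (MvPolynomial (σ ⊕ (Fin n × Fin 2)) ℤ)) (e : Fin n → Option (Fin 3)) (r : ℕ) : Prop :=
  ¬ ∃ ζ : σ → ZMod r, ζ ≠ 0 ∧ Satisfies I ζ (fun j => (branch (a j.1) (e j.1) j.2 : ZMod r))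

/-- `(P, ζ)` is a rational point of the twist `X_d` of `X = Y ×_{(ℙ¹)ⁿ} ∏ Eᵢ`. -/
def IsPoint {n : ℕ} {σ : Type} (a : Fin n → Fin 3 → ℤ)
    (I : Set (MvPolynomial (σ ⊕ (Fin n × Fin 2)) ℤ)) (d : ℤ) (P : Fin n → Option (ℚ × ℚ))
    (ζ : σ → ℚ) : Prop :=
  (∀ i, OnTwist (a i) d (P i)) ∧ ζ ≠ 0 ∧ Satisfies I ζ (fun j => coord (P j.1) j.2)

/-- The set `V(ℚ)` of rational points of a scheme `V` over `ℚ`, as a set of points of `V`: the
images of the sections of the structure morphism. -/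
def rationalPoints {V : Scheme.{0}} (f : V ⟶ Spec (CommRingCat.of ℚ)) : Set V :=
  {P | ∃ s : Spec (CommRingCat.of ℚ) ⟶ V, s ≫ f = 𝟙 _ ∧ s (IsLocalRing.closedPoint ℚ) = P}

/-- **Main theorem.** -/
theorem result (n : ℕ) (a : Fin n → Fin 3 → ℤ) (ha : ∀ i, Function.Injective (a i))
    (σ : Type) [Fintype σ] (k : σ → Fin n → ℕ) (I : Set (MvPolynomial (σ ⊕ (Fin n × Fin 2)) ℤ))
    (hI : ∀ G ∈ I, IsMultihomogeneous k G)
    (hY : ∀ e : Fin n → Option (Fin 3), ∃ c M B : ℕ, 0 < M ∧ Nat.Coprime c M ∧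
      ∀ r : ℕ, r.Prime → B < r → r ≡ c [MOD M] → EmptyFibre a I e r) :
    ∃ (S : Set ℤ) (C δ : ℝ), 0 < δ ∧
      (∀ N : ℕ, 2 ≤ N → (Nat.card {d : ℤ // d ∈ S ∧ |d| ≤ N} : ℝ) ≤ C * N * (Real.log N) ^ (-δ)) ∧
      ∀ d : ℤ, Squarefree d → d ∉ S →
        (∀ P ζ, ¬ IsPoint a I d P ζ) ∧
        ∀ (V : Scheme.{0}) [IsIntegral V] (f : V ⟶ Spec (CommRingCat.of ℚ))
          (x y : Fin n → V.functionField) (ζ : σ → V.functionField),
          (∀ i, (d : V.functionField) * y i ^ 2 = (x i - (a i 0 : V.functionField)) *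
            (x i - (a i 1 : V.functionField)) * (x i - (a i 2 : V.functionField))) →
          ζ ≠ 0 → Satisfies I ζ (fun j => ![x j.1, 1] j.2) →
          ¬ Dense (rationalPoints f) := by
  classical
  have hHB : Pool.Agent.Helper11.TW.HBS := sorry
  have hI' : ∀ G ∈ I, Pool.Agent.Helper11.TW.IsMulti k G := hI
  have hrep : ∀ (R : Type) [CommRing R] (b : Fin 3 → ℤ) (t : Option (Fin 3)) (j : Fin 2),
      ((branch b t j : ℤ) : R) = (![((Pool.Agent.Helper11.TW.rep b t).1 : R),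
        ((Pool.Agent.Helper11.TW.rep b t).2 : R)] : Fin 2 → R) j := by
    intro R _ b t j
    cases t <;> fin_cases j <;> simp [branch, Pool.Agent.Helper11.TW.rep]
  have hfib : ∀ e r, EmptyFibre a I e r → Pool.Agent.Helper11.TW.NoPoint a I e r := by
    intro e r h ζ hζ
    by_contra h0
    refine h ⟨ζ, h0, ?_⟩
    intro G hG
    have := hζ G hG
    rw [← this]
    congr 2
    funext s
    rcases s with s | ⟨i, j⟩
    · rfl
    · exact hrep (ZMod r) (a i) (e i) j
  obtain ⟨C, δ, hδ, hC⟩ := Pool.Agent.Helper11.TW.count_bound hHB n a ha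
    (fun e r => Pool.Agent.Helper11.TW.NoPoint a I e r) (by
      intro e
      obtain ⟨c, M, B, hM, hc, h⟩ := hY e
      exact ⟨M, c, B, hM, hc, fun r hr hB hrM => hfib e r (h r hr hB hrM)⟩)
  have key : ∀ d : ℤ, Squarefree d → ∀ P ζ, IsPoint a I d P ζ → ∃ p q w : Fin n → ℤ,
        (∀ i, IsCoprime (p i) (q i) ∧
          d * w i ^ 2 = Pool.Agent.Helper11.TW.quartic (a i) (p i) (q i)) ∧
        ∀ r : ℕ, r.Prime → (r : ℤ) ∣ d → ∀ ε : Fin n → Option (Fin 3),
          (∀ i, (r : ℤ) ∣ Pool.Agent.Helper11.TW.lin (a i) (ε i) (p i) (q i)) →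
            ¬ Pool.Agent.Helper11.TW.NoPoint a I ε r := by
    intro d hd P ζ hP
    obtain ⟨h1, h2, h3⟩ := hP
    obtain ⟨ζ', p', q', w', hs, hc, hr⟩ := Pool.Agent.Helper11.TW.exists_integral a k I hI' d hd ζ h2
      (fun i => coord (P i) 0) (fun i => coord (P i) 1)
      (fun i => match P i with
        | none => 0
        | some (_, y) => y)
      (by
        intro i
        rcases P i with _ | ⟨x, y⟩
        · left; simp [coord]
        · right; simp [coord])
      (by
        intro i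
        have := h1 i
        revert this
        rcases P i with _ | ⟨x, y⟩
        · intro _; simp [coord]
        · intro this
          simp only [OnTwist] at this
          simp only [coord, Matrix.cons_val_zero, Matrix.cons_val_one, mul_one, one_mul]
          exact this)
      (by
        intro G hG
        have := h3 G hG
        rw [← this]
        congr 2
        funext s
        rcases s with s | ⟨i, j⟩
        · rfl
        · fin_cases j <;> rfl)
    exact ⟨p', q', w', hc, fun r hrp _ ε hε => Pool.Agent.Helper11.TW.not_noPoint a k I hI' ζ' p' q'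
      hs (fun i => (hc i).1) r hrp (hr r hrp) ε hε⟩
  refine ⟨{d | Squarefree d ∧ ∃ P ζ, IsPoint a I d P ζ}, C, δ, hδ, ?_, ?_⟩
  · intro N hN
    have hfin : {d : ℤ | (Squarefree d ∧ ∃ P ζ, IsPoint a I d P ζ) ∧ |d| ≤ (N : ℤ)}.Finite := by
      refine (Set.finite_Icc (-(N : ℤ)) (N : ℤ)).subset ?_
      intro d hd
      exact abs_le.mp hd.2
    have h1 := hC N hN hfin.toFinset (by
      intro d hd
      rw [Set.Finite.mem_toFinset] at hd
      obtain ⟨⟨hsq, P, ζ, hP⟩, hN'⟩ := hd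
      exact ⟨hsq, hN', key d hsq P ζ hP⟩)
    refine le_trans (le_of_eq ?_) h1
    have : Nat.card {d : ℤ // d ∈ {d : ℤ | Squarefree d ∧ ∃ P ζ, IsPoint a I d P ζ} ∧
        |d| ≤ (N : ℤ)} = hfin.toFinset.card := by
      rw [← Set.ncard_eq_toFinset_card _ hfin]
      rfl
    exact_mod_cast this
  · intro d hd hdS
    refine ⟨fun P ζ hP => hdS ⟨hd, P, ζ, hP⟩, ?_⟩
    intro V _ f x y ζ hxy hζ hz hdense
    obtain ⟨ζ', x', y', h0, h1, h2⟩ := Pool.Agent.Helper11.TW.exists_rational a I d f x y ζ hζ hxy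
      (by
        intro G hG
        have := hz G hG
        rw [← this]) hdense
    refine hdS ⟨hd, fun i => some (x' i, y' i), ζ', fun i => h1 i, h0, ?_⟩
    intro G hG
    have := h2 G hG
    rw [← this]
    congr 2

end Pool.Agent.Results.MP_2ae8fe_ag.QuadraticTwists
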